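import Pool.Agent.K3h53.FM.Pol
import Pool.Agent.R323.PN.G

/-!
# The number of exceptional maps with coefficients in a finite set
-/

set_option autoImplicit false

namespace Pool.Agent.K3h53.FM

open Pool.Agent.R323 Pool.Agent.R323.PN Height
open Pool.Agent.R559.NP (Cj)

variable {d : ℕ}

/-- more than `N` preperiodic points of degree at most `B` over a number field of degree at most `D` over which the height
is at most `X` -/
def Exc (D B N X : ℕ) (F : Fin 2 → Fin (d + 1) → Qb) : Prop :=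
  (∀ v : Fin 2 → Qb, ac F v = 0 → v = 0) ∧
    ∃ (K : IntermediateField ℚ Qb) (_ : NumberField K) (F' : Fin 2 → Fin (d + 1) → K),
      (∀ i j, F i j = (F' i j : Qb)) ∧ Module.finrank ℚ K ≤ D ∧
      mulHeight (fun p : Fin 2 × Fin (d + 1) => F' p.1 p.2) ≤ X ∧ (N : ℕ∞) < (TT K F B).encard

/-- the conjugacy classes -/
def stC (d : ℕ) : Setoid (Fin 2 → Fin (d + 1) → Qb) where
  r F G := Cj F G
  iseqv := ⟨Cj.refl, Cj.symm, Cj.trans⟩

/-- **Few classes.** -/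
theorem few (D B d : ℕ) (hd : 2 ≤ d) (ε : ℝ) (hε : 0 < ε) : ∃ (N : ℕ) (C : ℝ), 0 ≤ C ∧
    ∀ X : ℕ, 1 ≤ X → ∀ T : Finset (Fin 2 → Fin (d + 1) → Qb), (∀ F ∈ T, Exc D B N X F) →
      ∀ n : ℕ, (∀ G ∈ T, ∀ T' ⊆ T, (∀ F ∈ T', Cj F G) → T'.card ≤ n) →
        (T.card : ℝ) ≤ C * (X : ℝ) ^ ε * n := by
  classical
  obtain ⟨M, C, h⟩ := mainB d D B hd ε hε
  refine ⟨M, |C|, abs_nonneg _, fun X hX T hT n hn => ?_⟩
  let Q : Finset (Quotient (stC d)) := T.image (Quotient.mk (stC d))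
  have hQ : ∀ z : {z // z ∈ Q}, ∃ G ∈ T, Quotient.mk (stC d) G = z.1 := fun z => Finset.mem_image.1 z.2
  have h1 : T.card ≤ n * Q.card := by
    refine Finset.card_le_mul_card_image T n fun z hz => ?_
    obtain ⟨G, hG, hGz⟩ := hQ ⟨z, hz⟩
    refine hn G hG _ (Finset.filter_subset _ _) fun F hF => ?_
    have h2 := (Finset.mem_filter.1 hF).2
    exact Quotient.exact (s := stC d) (h2.trans hGz.symm)
  choose g hgT hgz using hQ
  have hE : ∀ z : {z // z ∈ Q}, ∃ (K : IntermediateField ℚ Qb) (_ : NumberField K)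
      (F' : Fin 2 → Fin (d + 1) → K), (∀ i j, g z i j = (F' i j : Qb)) ∧ Module.finrank ℚ K ≤ D ∧
      mulHeight (fun p : Fin 2 × Fin (d + 1) => F' p.1 p.2) ≤ X ∧
      (M : ℕ∞) < (TT K (g z) B).encard := fun z => (hT _ (hgT z)).2
  choose K instK F' hF' hKD hht hmany using hE
  have hco : ∀ z, (fun i j => (F' z i j : Qb)) = g z := by
    intro z
    funext i j
    exact (hF' z i j).symm
  have h2 : (Q.card : ℝ) ≤ C * (X : ℝ) ^ ε := by
    have h3 := h X hX {z // z ∈ Q} K F' (fun z => ?_) (fun a b hab E hE hEd hc => ?_)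
    · rwa [Fintype.card_coe] at h3
    · refine hypB_of (hKD z) ?_ (hht z) ?_
      · rw [hco]
        exact (hT _ (hgT z)).1
      · rw [hco]
        exact hmany z
    · apply hab
      rw [hco, hco] at hc
      obtain ⟨A, -, hA, hv⟩ := hc
      have h4 : Cj (g a) (g b) := ⟨A, hA, hv⟩
      apply Subtype.ext
      rw [← hgz a, ← hgz b]
      exact Quotient.sound (s := stC d) h4
  have h3 : (T.card : ℝ) ≤ (n : ℝ) * Q.card := by exact_mod_cast h1
  have h4 : C * (X : ℝ) ^ ε ≤ |C| * (X : ℝ) ^ ε :=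
    mul_le_mul_of_nonneg_right (le_abs_self _) (by positivity)
  calc (T.card : ℝ) ≤ (n : ℝ) * Q.card := h3
    _ ≤ (n : ℝ) * (|C| * (X : ℝ) ^ ε) := mul_le_mul_of_nonneg_left (h2.trans h4) (by positivity)
    _ = _ := by ring

/-- members of a class with coefficients in a finite set -/
theorem fib (S : Finset Qb) (G : Fin 2 → Fin (d + 1) → Qb) (T : Finset (Fin 2 → Fin (d + 1) → Qb))
    (hS : ∀ F ∈ T, ∀ i j, F i j ∈ S) (h0 : ∀ F ∈ T, ∀ v : Fin 2 → Qb, ac F v = 0 → v = 0)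
    (hc : ∀ F ∈ T, Cj F G) : T.card ≤ (2 * (d + 1) ^ 2 * S.card) ^ 4 := by
  classical
  rcases T.eq_empty_or_nonempty with rfl | ⟨F₀, hF₀⟩
  · simp
  have hS1 : 1 ≤ S.card := Finset.card_pos.2 ⟨_, hS F₀ hF₀ 0 0⟩
  have hinj : Function.Injective fun (F : Fin 2 → Fin (d + 1) → Qb) (l : Fin 2 × Fin (d + 1)) =>
      F l.1 l.2 := by
    intro F F' h
    funext i j
    exact congrFun h (i, j)
  have h1 := grid (k := Qb) (ι := Fin 2 × Fin 2) (Orb G) (d + 1)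
    (fun l => Orb_mem G (fun a => a) (fun q => V_coord q) l) S
    (T.image fun (F : Fin 2 → Fin (d + 1) → Qb) (l : Fin 2 × Fin (d + 1)) => F l.1 l.2) (by
      intro x hx
      obtain ⟨F, hF, rfl⟩ := Finset.mem_image.1 hx
      refine ⟨fun l => hS F hF l.1 l.2, ?_⟩
      obtain ⟨A, hA, hv⟩ := hc F hF
      obtain ⟨τ, hτ⟩ := orb_of (h0 F hF) hA hv
      refine ⟨fun q => τ * A q.1 q.2, ?_⟩
      funext l
      exact (hτ l).symm)
  rw [Finset.card_image_of_injective _ hinj] at h1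
  refine h1.trans ?_
  have h2 : Fintype.card (Fin 2 × Fin 2) = 4 := by simp
  have h3 : Fintype.card (Fin 2 × Fin (d + 1)) = 2 * (d + 1) := by simp
  rw [h2, h3]
  refine Nat.pow_le_pow_left ?_ 4
  obtain ⟨m, hm⟩ : ∃ m, S.card = m + 1 := ⟨S.card - 1, by omega⟩
  rw [hm]
  simp only [Nat.add_sub_cancel]
  nlinarith [Nat.zero_le d, Nat.zero_le m]

/-- polynomials in a class with coefficients in a finite set -/
theorem fibP (hd : 2 ≤ d) (S : Finset Qb) (G : Fin 2 → Fin (d + 1) → Qb)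
    (hG : ∀ v : Fin 2 → Qb, ac G v = 0 → v = 0) (hGp : IsPl G)
    (T : Finset (Fin 2 → Fin (d + 1) → Qb))
    (hS : ∀ F ∈ T, (∀ j, F 0 j ∈ S) ∧ F 1 0 ∈ S) (hp : ∀ F ∈ T, IsPl F)
    (h0 : ∀ F ∈ T, ∀ v : Fin 2 → Qb, ac F v = 0 → v = 0)
    (hc : ∀ F ∈ T, Cj F G) : T.card ≤ (2 * (d + 1) ^ 2 * S.card) ^ 3 := by
  classical
  rcases T.eq_empty_or_nonempty with rfl | ⟨F₀, hF₀⟩
  · simp
  have hS1 : 1 ≤ S.card := Finset.card_pos.2 ⟨_, (hS F₀ hF₀).1 0⟩
  let co : Option (Fin (d + 1)) → Fin 2 × Fin (d + 1) := fun o => o.elim (1, 0) fun j => (0, j)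
  have hinj : Set.InjOn (fun (F : Fin 2 → Fin (d + 1) → Qb) (o : Option (Fin (d + 1))) =>
      F (co o).1 (co o).2) T := by
    intro F hF F' hF' h
    funext i j
    fin_cases i
    · exact congrFun h (some j)
    · by_cases hj : j = 0
      · subst hj
        exact congrFun h none
      · show F 1 j = F' 1 j
        rw [hp F hF j hj, hp F' hF' j hj]
  have h1 := grid (k := Qb) (ι := Fin 3) (fun a (o : Option (Fin (d + 1))) => Orb G (BA a) (co o)) (d + 1)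
    (fun o => Orb_mem G (fun a => BA a) (fun q => BA_mem q) (co o)) S
    (T.image fun (F : Fin 2 → Fin (d + 1) → Qb) (o : Option (Fin (d + 1))) =>
      F (co o).1 (co o).2) (by
      intro x hx
      obtain ⟨F, hF, rfl⟩ := Finset.mem_image.1 hx
      refine ⟨fun o => ?_, ?_⟩
      · cases o with
        | none => exact (hS F hF).2
        | some j => exact (hS F hF).1 j
      · obtain ⟨a, ha⟩ := orb_pl hd (h0 F hF) hG (hp F hF) hGp (hc F hF)
        refine ⟨a, ?_⟩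
        funext o
        exact (ha (co o)).symm)
  rw [Finset.card_image_of_injOn hinj] at h1
  refine h1.trans ?_
  have h2 : Fintype.card (Fin 3) = 3 := by simp
  have h3 : Fintype.card (Option (Fin (d + 1))) = d + 2 := by simp
  rw [h2, h3]
  refine Nat.pow_le_pow_left ?_ 3
  obtain ⟨m, hm⟩ : ∃ m, S.card = m + 1 := ⟨S.card - 1, by omega⟩
  rw [hm]
  simp only [Nat.add_sub_cancel]
  nlinarith [Nat.zero_le d, Nat.zero_le m, Nat.zero_le (d * m), Nat.zero_le (d * d * m)]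

/-- **The count.** -/
theorem count (D B d : ℕ) (hd : 2 ≤ d) (ε : ℝ) (hε : 0 < ε) : ∃ (N : ℕ) (C : ℝ), 0 ≤ C ∧
    ∀ X : ℕ, 1 ≤ X → ∀ S : Finset Qb, ∀ T : Finset (Fin 2 → Fin (d + 1) → Qb),
      (∀ F ∈ T, Exc D B N X F) →
      ((∀ F ∈ T, ∀ i j, F i j ∈ S) → (T.card : ℝ) ≤ C * (S.card : ℝ) ^ 4 * (X : ℝ) ^ ε) ∧
      ((∀ F ∈ T, IsPl F ∧ (∀ j, F 0 j ∈ S) ∧ F 1 0 ∈ S) →
        (T.card : ℝ) ≤ C * (S.card : ℝ) ^ 3 * (X : ℝ) ^ ε) := by
  obtain ⟨N, C, hC, h⟩ := few D B d hd ε hε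
  refine ⟨N, C * (2 * ((d : ℝ) + 1) ^ 2) ^ 4, by positivity, fun X hX S T hT => ⟨fun hS => ?_, fun hS => ?_⟩⟩
  · have h1 := h X hX T hT ((2 * (d + 1) ^ 2 * S.card) ^ 4) fun G _ T' hT' hc =>
      fib S G T' (fun F hF => hS F (hT' hF)) (fun F hF => (hT F (hT' hF)).1) hc
    refine h1.trans (le_of_eq ?_)
    push_cast
    ring
  · have h1 := h X hX T hT ((2 * (d + 1) ^ 2 * S.card) ^ 3) fun G hG T' hT' hc =>
      fibP hd S G (hT G hG).1 (hS G hG).1 T' (fun F hF => (hS F (hT' hF)).2)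
        (fun F hF => (hS F (hT' hF)).1) (fun F hF => (hT F (hT' hF)).1) hc
    refine h1.trans ?_
    push_cast
    have e1 : (1 : ℝ) ≤ 2 * ((d : ℝ) + 1) ^ 2 := by nlinarith [(Nat.cast_nonneg d : (0 : ℝ) ≤ d)]
    have e2 : (2 * ((d : ℝ) + 1) ^ 2) ^ 3 ≤ (2 * ((d : ℝ) + 1) ^ 2) ^ 4 :=
      pow_le_pow_right₀ e1 (by norm_num)
    have e3 : (0 : ℝ) ≤ C * (X : ℝ) ^ ε * (S.card : ℝ) ^ 3 := by positivity
    calc C * (X : ℝ) ^ ε * (2 * ((d : ℝ) + 1) ^ 2 * (S.card : ℝ)) ^ 3 =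
          C * (X : ℝ) ^ ε * (S.card : ℝ) ^ 3 * (2 * ((d : ℝ) + 1) ^ 2) ^ 3 := by ring
      _ ≤ C * (X : ℝ) ^ ε * (S.card : ℝ) ^ 3 * (2 * ((d : ℝ) + 1) ^ 2) ^ 4 :=
          mul_le_mul_of_nonneg_left e2 e3
      _ = _ := by ring

end Pool.Agent.K3h53.FM
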