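import Mathlib

/-!
# Points of a grid on the image of a polynomial map

Let `P : k ^ r → k ^ n` be a map whose coordinates are polynomials of degree at most `e` in each variable.  Then the image
of `P` contains at most `(e n (M - 1) + 1) ^ r` points of `S ^ n`, for every set `S` of `M` elements of the field `k`.
Proof: the polynomials which separate the points of `S ^ n` are pulled back by `P`.
-/

set_option autoImplicit false

namespace Pool.Agent.K3h53.FM

open Module

section

variable (k : Type*) [Field k] (ι : Type*) [Fintype ι]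

/-- the polynomial functions on `k ^ ι` of degree at most `m` in each variable -/
def V (m : ℕ) : Submodule k ((ι → k) → k) :=
  Submodule.span k (Set.range fun α : ι → Fin (m + 1) => fun a : ι → k => ∏ i, a i ^ (α i : ℕ))

variable {k ι}

theorem V_finrank (m : ℕ) : finrank k (V k ι m) ≤ (m + 1) ^ Fintype.card ι := by
  classical
  refine (finrank_range_le_card (R := k) fun α : ι → Fin (m + 1) =>
    fun a : ι → k => ∏ i, a i ^ (α i : ℕ)).trans ?_
  rw [Fintype.card_fun, Fintype.card_fin]

instance V_fd (m : ℕ) : FiniteDimensional k (V k ι m) := by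
  classical
  exact FiniteDimensional.span_of_finite k (Set.finite_range _)

theorem mono_mem {m : ℕ} (α : ι → ℕ) (hα : ∀ i, α i ≤ m) :
    (fun a : ι → k => ∏ i, a i ^ (α i)) ∈ V k ι m :=
  Submodule.subset_span ⟨fun i => ⟨α i, Nat.lt_succ_of_le (hα i)⟩, rfl⟩

theorem V_mono {m m' : ℕ} (h : m ≤ m') : V k ι m ≤ V k ι m' := by
  refine Submodule.span_le.2 ?_
  rintro f ⟨α, rfl⟩
  exact mono_mem (fun i => (α i : ℕ)) fun i => (Nat.lt_succ_iff.1 (α i).2).trans h

theorem V_const (m : ℕ) (c : k) : (fun _ : ι → k => c) ∈ V k ι m := by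
  have h := mono_mem (k := k) (m := m) (fun _ : ι => 0) fun _ => Nat.zero_le _
  have h2 := (V k ι m).smul_mem c h
  convert h2 using 1
  funext a
  simp

theorem V_coord (i : ι) : (fun a : ι → k => a i) ∈ V k ι 1 := by
  classical
  have h := mono_mem (k := k) (m := 1) (fun j : ι => if j = i then 1 else 0) fun j => by
    split_ifs <;> omega
  convert h using 1
  funext a
  rw [Finset.prod_eq_single i]
  · simp
  · intro j _ hj
    simp [hj]
  · intro h
    exact absurd (Finset.mem_univ _) h

theorem V_mul {m m' : ℕ} {f g : (ι → k) → k} (hf : f ∈ V k ι m) (hg : g ∈ V k ι m') :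
    (fun a => f a * g a) ∈ V k ι (m + m') := by
  have h : f * g ∈ (V k ι m) * (V k ι m') := Submodule.mul_mem_mul hf hg
  unfold V at h
  rw [Submodule.span_mul_span] at h
  refine Submodule.span_le.2 ?_ h
  rintro w ⟨x, ⟨α, rfl⟩, y, ⟨β, rfl⟩, rfl⟩
  have h2 := mono_mem (k := k) (m := m + m') (fun i => (α i : ℕ) + (β i : ℕ)) fun i => by
    have h1 := (α i).2
    have h3 := (β i).2
    omega
  have h3 : (fun a : ι → k => ∏ i, a i ^ (α i : ℕ)) * (fun a : ι → k => ∏ i, a i ^ (β i : ℕ)) =
      fun a : ι → k => ∏ i, a i ^ ((α i : ℕ) + (β i : ℕ)) := by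
    funext a
    simp only [Pi.mul_apply, pow_add, Finset.prod_mul_distrib]
  show (fun a : ι → k => ∏ i, a i ^ (α i : ℕ)) * (fun a : ι → k => ∏ i, a i ^ (β i : ℕ)) ∈ _
  rw [h3]
  exact h2

theorem V_sum {m : ℕ} {κ : Type*} (s : Finset κ) {f : κ → (ι → k) → k} (hf : ∀ l ∈ s, f l ∈ V k ι m) :
    (fun a => ∑ l ∈ s, f l a) ∈ V k ι m := by
  have h := (V k ι m).sum_mem hf
  convert h using 1
  funext a
  simp

theorem V_prod {m : ℕ} {κ : Type*} (s : Finset κ) {f : κ → (ι → k) → k} (hf : ∀ l ∈ s, f l ∈ V k ι m) :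
    (fun a => ∏ l ∈ s, f l a) ∈ V k ι (s.card * m) := by
  classical
  induction s using Finset.induction_on with
  | empty =>
    simpa using V_const (k := k) (ι := ι) 0 1
  | insert x s hx ih =>
    have h1 := V_mul (hf x (Finset.mem_insert_self _ _)) (ih fun l hl => hf l (Finset.mem_insert_of_mem hl))
    have h2 : (fun a => ∏ l ∈ insert x s, f l a) = fun a => f x a * ∏ l ∈ s, f l a := by
      funext a
      rw [Finset.prod_insert hx]
    rw [h2, Finset.card_insert_of_notMem hx]
    refine V_mono (le_of_eq ?_) h1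
    ring

/-- **Points of a grid on the image of a polynomial map.** -/
theorem grid {κ : Type*} [Fintype κ] (P : (ι → k) → κ → k) (e : ℕ)
    (hP : ∀ l, (fun a => P a l) ∈ V k ι e) (S : Finset k) (T : Finset (κ → k))
    (hT : ∀ x ∈ T, (∀ l, x l ∈ S) ∧ ∃ a, P a = x) :
    T.card ≤ (Fintype.card κ * ((S.card - 1) * e) + 1) ^ Fintype.card ι := by
  classical
  set m := Fintype.card κ * ((S.card - 1) * e) with hm
  choose! A hA using fun x (hx : x ∈ T) => (hT x hx).2
  let Lf : (κ → k) → (ι → k) → k := fun x a => ∏ l, ∏ s ∈ S.erase (x l), (P a l - s)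
  have hL : ∀ x ∈ T, Lf x ∈ V k ι m := by
    intro x hx
    have h1 : ∀ l, (fun a => ∏ s ∈ S.erase (x l), (P a l - s)) ∈ V k ι ((S.card - 1) * e) := by
      intro l
      have h2 := V_prod (S.erase (x l)) (m := e) (f := fun s a => P a l - s)
        (fun s _ => (V k ι e).sub_mem (hP l) (V_const e s))
      rw [Finset.card_erase_of_mem ((hT x hx).1 l)] at h2
      exact h2
    have h3 := V_prod (Finset.univ : Finset κ) (m := (S.card - 1) * e)
      (f := fun l a => ∏ s ∈ S.erase (x l), (P a l - s)) (fun l _ => h1 l)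
    rw [Finset.card_univ] at h3
    exact h3
  have h0 : ∀ x ∈ T, Lf x (A x) ≠ 0 := by
    intro x hx
    refine Finset.prod_ne_zero_iff.2 fun l _ => Finset.prod_ne_zero_iff.2 fun s hs => ?_
    rw [hA x hx]
    exact sub_ne_zero.2 fun h => (Finset.mem_erase.1 hs).1 h.symm
  have h1 : ∀ x ∈ T, ∀ y ∈ T, x ≠ y → Lf x (A y) = 0 := by
    intro x hx y hy hne
    obtain ⟨l, hl⟩ := Function.ne_iff.1 hne
    refine Finset.prod_eq_zero (Finset.mem_univ l) (Finset.prod_eq_zero (i := y l) ?_ ?_)
    · exact Finset.mem_erase.2 ⟨fun h => hl h.symm, (hT y hy).1 l⟩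
    · rw [hA y hy, sub_self]
  have hli : LinearIndependent k (fun x : T => (⟨Lf x.1, hL x.1 x.2⟩ : V k ι m)) := by
    apply LinearIndependent.of_comp (V k ι m).subtype
    rw [linearIndependent_iff']
    intro s g hg x hx
    have h2 := congrFun hg (A x.1)
    rw [Finset.sum_apply] at h2
    rw [Finset.sum_eq_single x] at h2
    · simp only [Pi.smul_apply, Function.comp_apply, Submodule.subtype_apply, smul_eq_mul,
        Pi.zero_apply] at h2
      exact (mul_eq_zero.1 h2).resolve_right (h0 x.1 x.2)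
    · intro y _ hyx
      simp only [Pi.smul_apply, Function.comp_apply, Submodule.subtype_apply, smul_eq_mul]
      rw [h1 y.1 y.2 x.1 x.2 (fun h => hyx (Subtype.ext h)), mul_zero]
    · intro h
      exact absurd hx h
  have h2 := hli.fintype_card_le_finrank
  rw [Fintype.card_coe] at h2
  exact h2.trans (V_finrank m)

end

end Pool.Agent.K3h53.FM
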