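import Pool.Agent.K3h53.FM.Cnt

/-!
# Maps with integral coefficients
-/

set_option autoImplicit false

namespace Pool.Agent.K3h53.FM

open Pool.Agent.R323 Pool.Agent.R323.PN Height IntermediateField

variable {d : ℕ}

instance botNF : NumberField (⊥ : IntermediateField ℚ Qb) where
  to_charZero := inferInstance
  to_finiteDimensional := inferInstance

/-- the map over the algebraic numbers -/
noncomputable def toQ (F : Fin 2 → Fin (d + 1) → ℤ) : Fin 2 → Fin (d + 1) → Qb := fun i j => (F i j : Qb)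

theorem toQ_inj : Function.Injective (toQ (d := d)) := by
  intro F G h
  funext i j
  have h1 := congrFun (congrFun h i) j
  simp only [toQ] at h1
  exact_mod_cast h1

/-- integral maps -/
theorem exc_int {B N H : ℕ} (hH : 1 ≤ H) {F : Fin 2 → Fin (d + 1) → ℤ} (hb : ∀ i j, |F i j| ≤ (H : ℤ))
    (h0 : ∀ v : Fin 2 → Qb, ac (toQ F) v = 0 → v = 0)
    (hN : (N : ℕ∞) < (TT (⊥ : IntermediateField ℚ Qb) (toQ F) B).encard) : Exc 1 B N H (toQ F) := by
  refine ⟨h0, ⊥, botNF, fun i j => ((F i j : ℤ) : (⊥ : IntermediateField ℚ Qb)), ?_, ?_, ?_, hN⟩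
  · intro i j
    simp [toQ]
  · rw [IntermediateField.finrank_bot]
  · have hne : (fun p : Fin 2 × Fin (d + 1) => ((F p.1 p.2 : ℤ) : (⊥ : IntermediateField ℚ Qb))) ≠ 0 := by
      intro h
      have hF : ∀ i j, F i j = 0 := by
        intro i j
        have h1 := congrFun h (i, j)
        simp only [Pi.zero_apply] at h1
        exact_mod_cast h1
      have h2 := h0 (fun _ => 1) (by
        funext i
        simp [ac, toQ, hF])
      exact one_ne_zero (congrFun h2 0)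
    have h1 := ht_int (⊥ : IntermediateField ℚ Qb)
      (fun p : Fin 2 × Fin (d + 1) => ((F p.1 p.2 : ℤ) : (⊥ : IntermediateField ℚ Qb))) hne
      (fun p => isIntegral_intCast _) (B := (H : ℝ)) (by exact_mod_cast hH) (fun v p => by
        rw [← NumberField.InfinitePlace.norm_embedding_eq, map_intCast, Complex.norm_intCast]
        exact_mod_cast hb p.1 p.2)
    rw [IntermediateField.finrank_bot, pow_one] at h1
    exact h1

/-- **The count of integral maps.** -/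
theorem count_int (B d : ℕ) (hd : 2 ≤ d) (ε : ℝ) (hε : 0 < ε) : ∃ (N : ℕ) (C : ℝ), 0 ≤ C ∧
    ∀ H : ℕ, 1 ≤ H → ∀ T : Finset (Fin 2 → Fin (d + 1) → ℤ),
      (∀ F ∈ T, (∀ i j, |F i j| ≤ (H : ℤ)) ∧ (∀ v : Fin 2 → Qb, ac (toQ F) v = 0 → v = 0) ∧
        (N : ℕ∞) < (TT (⊥ : IntermediateField ℚ Qb) (toQ F) B).encard) →
      ((T.card : ℝ) ≤ C * (H : ℝ) ^ (4 + ε)) ∧
      ((∀ F ∈ T, ∀ j, j ≠ 0 → F 1 j = 0) → (T.card : ℝ) ≤ C * (H : ℝ) ^ (3 + ε)) := by
  classical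
  obtain ⟨N, C, hC, h⟩ := count 1 B d hd ε hε
  refine ⟨N, C * 81, by positivity, fun H hH T hT => ?_⟩
  obtain ⟨S, hS⟩ : ∃ S : Finset Qb, S = (Finset.Icc (-(H : ℤ)) H).image fun n : ℤ => (n : Qb) := ⟨_, rfl⟩
  have hSc : (S.card : ℝ) ≤ 3 * H := by
    have h1 : S.card ≤ 2 * H + 1 := by
      rw [hS]
      refine Finset.card_image_le.trans ?_
      rw [Int.card_Icc]
      omega
    have h2 : (S.card : ℝ) ≤ 2 * H + 1 := by exact_mod_cast h1
    have h3 : (1 : ℝ) ≤ H := by exact_mod_cast hH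
    linarith
  have hmem : ∀ n : ℤ, |n| ≤ (H : ℤ) → (n : Qb) ∈ S := by
    intro n hn
    rw [hS]
    exact Finset.mem_image_of_mem _ (Finset.mem_Icc.2 (abs_le.1 hn))
  obtain ⟨h1, h2⟩ := h H hH S (T.image toQ) (by
    intro F hF
    obtain ⟨G, hG, rfl⟩ := Finset.mem_image.1 hF
    obtain ⟨a1, a2, a3⟩ := hT G hG
    exact exc_int hH a1 a2 a3)
  rw [Finset.card_image_of_injective _ toQ_inj] at h1 h2
  have hH0 : (0 : ℝ) < H := by exact_mod_cast hH
  constructor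
  · have h3 := h1 (by
      intro F hF i j
      obtain ⟨G, hG, rfl⟩ := Finset.mem_image.1 hF
      exact hmem _ ((hT G hG).1 i j))
    refine h3.trans ?_
    have h4 : (S.card : ℝ) ^ 4 ≤ (3 * (H : ℝ)) ^ 4 := pow_le_pow_left₀ (by positivity) hSc 4
    have h5 : (H : ℝ) ^ (4 + ε) = (H : ℝ) ^ 4 * (H : ℝ) ^ ε := by
      rw [Real.rpow_add hH0]
      norm_num
    rw [h5]
    calc C * (S.card : ℝ) ^ 4 * (H : ℝ) ^ ε ≤ C * (3 * (H : ℝ)) ^ 4 * (H : ℝ) ^ ε := by gcongr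
      _ = _ := by ring
  · intro hp
    have h3 := h2 (by
      intro F hF
      obtain ⟨G, hG, rfl⟩ := Finset.mem_image.1 hF
      refine ⟨fun j hj => ?_, fun j => hmem _ ((hT G hG).1 0 j), hmem _ ((hT G hG).1 1 0)⟩
      simp [toQ, hp G hG j hj])
    refine h3.trans ?_
    have h4 : (S.card : ℝ) ^ 3 ≤ (3 * (H : ℝ)) ^ 3 := pow_le_pow_left₀ (by positivity) hSc 3
    have h5 : (H : ℝ) ^ (3 + ε) = (H : ℝ) ^ 3 * (H : ℝ) ^ ε := by
      rw [Real.rpow_add hH0]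
      norm_num
    rw [h5]
    have h6 : (0 : ℝ) ≤ C * ((H : ℝ) ^ 3 * (H : ℝ) ^ ε) := by positivity
    calc C * (S.card : ℝ) ^ 3 * (H : ℝ) ^ ε ≤ C * (3 * (H : ℝ)) ^ 3 * (H : ℝ) ^ ε := by gcongr
      _ = 27 * (C * ((H : ℝ) ^ 3 * (H : ℝ) ^ ε)) := by ring
      _ ≤ 81 * (C * ((H : ℝ) ^ 3 * (H : ℝ) ^ ε)) := by linarith
      _ = _ := by ring

end Pool.Agent.K3h53.FM
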