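import Pool.Agent.K3h53.FM.Int

/-!
# Conjugate polynomials with the same two leading coefficients
-/

set_option autoImplicit false

namespace Pool.Agent.K3h53.FM

open Polynomial Pool.Agent.R323 Pool.Agent.R323.PN Height
open Pool.Agent.R559.NP (Cj)

section

variable {K : Type} [Field K] {d : ℕ}

/-- the coefficients of `X ^ d` and `X ^ (d - 1)` -/
theorem lin_pow_coeff (p q : K) (m : ℕ) : ((C p * X + C q) ^ m).coeff m = p ^ m ∧
    ((C p * X + C q) ^ (m + 1)).coeff m = (m + 1) * p ^ m * q := by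
  induction m with
  | zero =>
    constructor
    · simp
    · simp
  | succ m ih =>
    have h1 : ((C p * X + C q) ^ (m + 1)).coeff (m + 1) = p ^ (m + 1) := by
      have h2 : ((C p * X + C q : K[X]) ^ m).coeff (m + 1) = 0 := by
        apply Polynomial.coeff_eq_zero_of_natDegree_lt
        refine lt_of_le_of_lt Polynomial.natDegree_pow_le ?_
        have h3 : (C p * X + C q : K[X]).natDegree ≤ 1 := Polynomial.natDegree_linear_le
        calc m * (C p * X + C q : K[X]).natDegree ≤ m * 1 := Nat.mul_le_mul_left _ h3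
          _ < m + 1 := by omega
      rw [pow_succ, mul_add, coeff_add, ← mul_assoc, coeff_mul_X, coeff_mul_C, coeff_mul_C, ih.1, h2]
      ring
    refine ⟨h1, ?_⟩
    rw [pow_succ, mul_add, coeff_add, ← mul_assoc, coeff_mul_X, coeff_mul_C, coeff_mul_C, ih.2, h1]
    push_cast
    ring

theorem lin_pow_coeff_lt (p q : K) {m n : ℕ} (h : m < n) : ((C p * X + C q : K[X]) ^ m).coeff n = 0 := by
  apply Polynomial.coeff_eq_zero_of_natDegree_lt
  refine lt_of_le_of_lt Polynomial.natDegree_pow_le ?_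
  have h3 : (C p * X + C q : K[X]).natDegree ≤ 1 := Polynomial.natDegree_linear_le
  calc m * (C p * X + C q : K[X]).natDegree ≤ m * 1 := Nat.mul_le_mul_left _ h3
    _ < n := by omega

/-- the leading coefficients of `G (p x + q y, r y)` -/
theorem pl_lead (hd : 2 ≤ d) (G : Fin 2 → Fin (d + 1) → K) (B : Fin 2 × Fin 2 → K) (hB : B (1, 0) = 0)
    (l : Fin 2) :
    (pl G B l).coeff d = G l (Fin.last d) * B (0, 0) ^ d ∧
      (pl G B l).coeff (d - 1) = G l (Fin.last d) * (d * B (0, 0) ^ (d - 1) * B (0, 1)) +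
        G l ⟨d - 1, by omega⟩ * B (0, 0) ^ (d - 1) * B (1, 1) := by
  obtain ⟨e, rfl⟩ : ∃ e, d = e + 1 := ⟨d - 1, by omega⟩
  have hpl : pl G B l = ∑ m : Fin (e + 1 + 1), C (G l m * B (1, 1) ^ (e + 1 - (m : ℕ))) *
      (C (B (0, 0)) * X + C (B (0, 1))) ^ (m : ℕ) := by
    unfold pl
    refine Finset.sum_congr rfl fun m _ => ?_
    rw [hB, C_0, zero_mul, zero_add, ← C_pow, C_mul]
    ring
  have h2 := lin_pow_coeff (B (0, 0)) (B (0, 1)) (e + 1)
  have h3 := lin_pow_coeff (B (0, 0)) (B (0, 1)) e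
  rw [hpl]
  simp only [Polynomial.finsetSum_coeff, coeff_C_mul, Nat.add_sub_cancel]
  constructor
  · rw [Finset.sum_eq_single (Fin.last (e + 1))]
    · rw [Fin.val_last, h2.1]
      simp
    · intro m _ hm
      have h4 : (m : ℕ) < e + 1 := by
        have := m.2
        have h5 : (m : ℕ) ≠ e + 1 := fun h => hm (Fin.ext (by rw [h, Fin.val_last]))
        omega
      rw [lin_pow_coeff_lt _ _ h4, mul_zero]
    · intro h
      exact absurd (Finset.mem_univ _) h
  · have h5 : (⟨e, by omega⟩ : Fin (e + 1 + 1)) ≠ Fin.last (e + 1) := by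
      intro h
      have := congrArg Fin.val h
      simp at this
    rw [← Finset.add_sum_erase _ _ (Finset.mem_univ (Fin.last (e + 1))),
      ← Finset.add_sum_erase _ _ (Finset.mem_erase.2 ⟨h5, Finset.mem_univ _⟩),
      Finset.sum_eq_zero, add_zero]
    · rw [Fin.val_last, h3.2, h3.1]
      simp only [Nat.sub_self, pow_zero, mul_one]
      rw [show e + 1 - e = 1 by omega, pow_one]
      push_cast
      ring
    · intro m hm
      rw [Finset.mem_erase, Finset.mem_erase] at hm
      have h4 : (m : ℕ) < e := by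
        have := m.2
        have h6 : (m : ℕ) ≠ e + 1 := fun h => hm.2.1 (Fin.ext (by rw [h, Fin.val_last]))
        have h7 : (m : ℕ) ≠ e := fun h => hm.1 (Fin.ext h)
        omega
      rw [lin_pow_coeff_lt _ _ h4, mul_zero]

theorem pc_pl {F : Fin 2 → Fin (d + 1) → K} (h : IsPl F) : pc (F 1) = C (F 1 0) := by
  unfold pc
  rw [Finset.sum_eq_single (0 : Fin (d + 1))]
  · simp
  · intro j _ hj
    rw [h j hj, C_0, zero_mul]
  · intro h
    exact absurd (Finset.mem_univ _) h

theorem lead_ne [IsAlgClosed K] (hd : 1 ≤ d) {F : Fin 2 → Fin (d + 1) → K} (h : IsPl F)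
    (hF : ∀ v : Fin 2 → K, ac F v = 0 → v = 0) : F 0 (Fin.last d) ≠ 0 := by
  intro h0
  have h5 : ac F ![1, 0] = 0 := by
    funext i
    fin_cases i
    · simp only [ac, Fin.zero_eta, Matrix.cons_val_zero, one_pow, mul_one, Matrix.cons_val_one,
        Pi.zero_apply]
      refine Finset.sum_eq_zero fun j _ => ?_
      by_cases hj : j = Fin.last d
      · rw [hj, h0, zero_mul]
      · rw [zero_pow, mul_zero]
        intro h6
        apply hj
        apply Fin.ext
        have := j.2
        rw [Fin.val_last]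
        omega
    · show ac F ![1, 0] 1 = 0
      rw [ac_pl h]
      have h7 : (![1, 0] : Fin 2 → K) 1 = 0 := rfl
      have h8 : d ≠ 0 := by omega
      rw [h7, zero_pow h8, mul_zero]
  have h6 := congrFun (hF _ h5) 0
  simp at h6

/-- **Conjugate polynomials with the same leading coefficients.** -/
theorem fib_lead [IsAlgClosed K] [CharZero K] (hd : 2 ≤ d) (b e e' : K) (G : Fin 2 → Fin (d + 1) → K)
    (hG : ∀ v : Fin 2 → K, ac G v = 0 → v = 0) (hGp : IsPl G)
    (hG1 : G 1 0 = b ∧ G 0 (Fin.last d) = e ∧ G 0 ⟨d - 1, by omega⟩ = e')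
    (T : Finset (Fin 2 → Fin (d + 1) → K)) (hp : ∀ F ∈ T, IsPl F)
    (h1 : ∀ F ∈ T, F 1 0 = b ∧ F 0 (Fin.last d) = e ∧ F 0 ⟨d - 1, by omega⟩ = e')
    (h0 : ∀ F ∈ T, ∀ v : Fin 2 → K, ac F v = 0 → v = 0) (hc : ∀ F ∈ T, Cj F G) : T.card ≤ d - 1 := by
  classical
  have hb0 : b ≠ 0 := hG1.1 ▸ pl_ne (by omega) hGp hG
  have he0 : e ≠ 0 := hG1.2.1 ▸ lead_ne (by omega) hGp hG
  have hd0 : (d : K) ≠ 0 := by
    have : d ≠ 0 := by omega
    exact_mod_cast this
  -- the possible maps
  let Bα : K → Fin 2 × Fin 2 → K := fun α q =>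
    if q.1 = 0 then (if q.2 = 0 then α else e' * (α - 1) / (e * d)) else (if q.2 = 0 then 0 else 1)
  let Φ : K → Fin 2 → Fin (d + 1) → K := fun α i j =>
    if i = 0 then α⁻¹ * ((pl G (Bα α) 0).coeff (j : ℕ) - (if j = 0 then e' * (α - 1) / (e * d) * b else 0))
    else (if j = 0 then b else 0)
  have hsub : T ⊆ ((X ^ (d - 1) - C 1 : K[X]).roots.toFinset).image Φ := by
    intro F hF
    obtain ⟨f1, f2, f3⟩ := h1 F hF
    obtain ⟨g1, g2, g3⟩ := hG1
    obtain ⟨A, hA, hA0, hv⟩ := aff_of_cj hd (h0 F hF) hG (hp F hF) hGp (hc F hF)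
    obtain ⟨s, hs, hkey⟩ := key (h0 F hF) hA hv
    have hdet := Matrix.det_fin_two A
    rw [hA0, mul_zero, sub_zero] at hdet
    have hA00 : A 0 0 ≠ 0 := by
      intro h
      rw [h, zero_mul] at hdet
      exact hA hdet
    have hA11 : A 1 1 ≠ 0 := by
      intro h
      rw [h, mul_zero] at hdet
      exact hA hdet
    -- the second form
    have hk1 := hkey 1
    rw [hA0, C_0, zero_mul, zero_add, pc_pl (hp F hF), f1] at hk1
    have hpl1 : pl G (fun q => A q.1 q.2) 1 = C (b * A 1 1 ^ d) := by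
      unfold pl
      rw [Finset.sum_eq_single (0 : Fin (d + 1))]
      · simp only [hA0, C_0, zero_mul, zero_add, g1, Fin.val_zero, pow_zero, mul_one, Nat.sub_zero]
        rw [C_mul, C_pow]
      · intro j _ hj
        rw [hGp j hj, C_0, zero_mul, zero_mul]
      · intro h
        exact absurd (Finset.mem_univ _) h
    rw [hpl1, ← C_mul, ← C_mul] at hk1
    have hk1' := C_injective hk1
    have hs' : s = A 1 1 ^ (d - 1) := by
      have h2 : A 1 1 ^ d = A 1 1 ^ (d - 1) * A 1 1 := by
        rw [← pow_succ]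
        congr 1
        omega
      rw [h2] at hk1'
      have h3 : (s - A 1 1 ^ (d - 1)) * (A 1 1 * b) = 0 := by linear_combination -hk1'
      have h4 := (mul_eq_zero.1 h3).resolve_right (mul_ne_zero hA11 hb0)
      exact sub_eq_zero.1 h4
    -- the first form
    have hk0 := hkey 0
    rw [pc_pl (hp F hF), f1] at hk0
    have hlead := pl_lead hd G (fun q => A q.1 q.2) hA0 0
    have hco : ∀ j : Fin (d + 1), (pc (F 0)).coeff (j : ℕ) = F 0 j := by
      intro j
      rw [pc_coeff, dif_pos j.2]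
    have c1 : (pl G (fun q => A q.1 q.2) 0).coeff d = s * (A 0 0 * e) := by
      rw [hk0, coeff_C_mul, coeff_add, coeff_C_mul, ← C_mul, coeff_C, if_neg (by omega), add_zero]
      have h2 := hco (Fin.last d)
      rw [Fin.val_last] at h2
      rw [h2, f2]
    have c2 : (pl G (fun q => A q.1 q.2) 0).coeff (d - 1) = s * (A 0 0 * e') := by
      rw [hk0, coeff_C_mul, coeff_add, coeff_C_mul, ← C_mul, coeff_C, if_neg (by omega), add_zero]
      have h2 := hco ⟨d - 1, by omega⟩
      simp only at h2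
      rw [h2, f3]
    rw [hlead.1, g2] at c1
    rw [hlead.2, g2, g3] at c2
    simp only at c1 c2
    obtain ⟨α, hα⟩ : ∃ α, α = A 0 0 / A 1 1 := ⟨_, rfl⟩
    have hα0 : α ≠ 0 := by
      rw [hα]
      exact div_ne_zero hA00 hA11
    have hA00' : A 0 0 = α * A 1 1 := by
      rw [hα]
      field_simp
    have hps : A 0 0 ^ (d - 1) = s := by
      have h2 : A 0 0 ^ d = A 0 0 ^ (d - 1) * A 0 0 := by
        rw [← pow_succ]
        congr 1
        omega
      rw [h2] at c1
      have h3 : (A 0 0 ^ (d - 1) - s) * (A 0 0 * e) = 0 := by linear_combination c1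
      exact sub_eq_zero.1 ((mul_eq_zero.1 h3).resolve_right (mul_ne_zero hA00 he0))
    have hroot : α ^ (d - 1) = 1 := by
      rw [hα, div_pow, hps, hs', div_self (pow_ne_zero _ hA11)]
    have hβ : A 0 1 = e' * (α - 1) / (e * d) * A 1 1 := by
      rw [hps] at c2
      have h3 : s * (e * (d * A 0 1) - e' * (A 0 0 - A 1 1)) = 0 := by linear_combination c2
      have h4 := (mul_eq_zero.1 h3).resolve_left hs
      rw [hA00'] at h4
      field_simp
      linear_combination h4
    rw [Finset.mem_image]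
    refine ⟨α, ?_, ?_⟩
    · rw [Multiset.mem_toFinset, mem_roots (X_pow_sub_C_ne_zero (by omega) 1), IsRoot.def, eval_sub, eval_pow,
        eval_X, eval_C, hroot, sub_self]
    · have hBA : (fun q : Fin 2 × Fin 2 => A q.1 q.2) = fun q => A 1 1 * Bα α q := by
        funext q
        obtain ⟨q1, q2⟩ := q
        fin_cases q1 <;> fin_cases q2
        · show A 0 0 = A 1 1 * Bα α (0, 0)
          rw [hA00']
          simp only [Bα]
          rw [if_pos trivial, if_pos trivial]
          ring
        · show A 0 1 = A 1 1 * Bα α (0, 1)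
          rw [hβ]
          simp only [Bα]
          rw [if_pos trivial, if_neg (by decide)]
          ring
        · show A 1 0 = A 1 1 * Bα α (1, 0)
          rw [hA0]
          simp only [Bα]
          rw [if_neg (by decide), if_pos trivial]
          ring
        · show A 1 1 = A 1 1 * Bα α (1, 1)
          simp only [Bα]
          rw [if_neg (by decide), if_neg (by decide)]
          ring
      have hfirst : pl G (Bα α) 0 = C α * pc (F 0) + C (e' * (α - 1) / (e * d) * b) := by
        rw [hBA, pl_smul] at hk0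
        have hr : A 1 1 ^ d ≠ 0 := pow_ne_zero _ hA11
        have h5 : C (A 1 1 ^ d) * pl G (Bα α) 0 =
            C (A 1 1 ^ d) * (C α * pc (F 0) + C (e' * (α - 1) / (e * d) * b)) := by
          rw [hk0, hs', hA00', hβ]
          have h6 : A 1 1 ^ d = A 1 1 ^ (d - 1) * A 1 1 := by
            rw [← pow_succ]
            congr 1
            omega
          rw [h6]
          simp only [C_mul]
          ring
        exact mul_left_cancel₀ (by rwa [Ne, C_eq_zero]) h5
      funext i j
      fin_cases i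
      · show Φ α 0 j = F 0 j
        simp only [Φ]
        rw [if_pos trivial, hfirst, coeff_add, coeff_C_mul, hco, coeff_C]
        have h7 : ((j : ℕ) = 0) ↔ j = 0 := by
          constructor
          · intro h
            exact Fin.ext h
          · rintro rfl
            rfl
        simp only [h7]
        rw [add_sub_cancel_right, inv_mul_cancel_left₀ hα0]
      · show Φ α 1 j = F 1 j
        simp only [Φ]
        rw [if_neg (by decide)]
        split_ifs with hj
        · rw [hj, f1]
        · exact (hp F hF j hj).symm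
  refine (Finset.card_le_card hsub).trans (Finset.card_image_le.trans ?_)
  refine (Multiset.toFinset_card_le _).trans ?_
  refine (Polynomial.card_roots' _).trans ?_
  rw [Polynomial.natDegree_X_pow_sub_C]

end

/-- **The count of polynomials with given leading coefficients.** -/
theorem count_lead (D B d : ℕ) (hd : 2 ≤ d) (ε : ℝ) (hε : 0 < ε) : ∃ (N : ℕ) (C : ℝ), 0 ≤ C ∧
    ∀ X : ℕ, 1 ≤ X → ∀ b e e' : Qb, ∀ T : Finset (Fin 2 → Fin (d + 1) → Qb),
      (∀ F ∈ T, Exc D B N X F ∧ IsPl F ∧
        F 1 0 = b ∧ F 0 (Fin.last d) = e ∧ F 0 ⟨d - 1, by omega⟩ = e') →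
      (T.card : ℝ) ≤ C * (X : ℝ) ^ ε := by
  obtain ⟨N, C, hC, h⟩ := few D B d hd ε hε
  refine ⟨N, C * d, by positivity, fun X hX b e e' T hT => ?_⟩
  have h1 := h X hX T (fun F hF => (hT F hF).1) (d - 1) fun G hG T' hT' hc =>
    fib_lead hd b e e' G (hT G hG).1.1 (hT G hG).2.1 (hT G hG).2.2 T' (fun F hF => (hT F (hT' hF)).2.1)
      (fun F hF => (hT F (hT' hF)).2.2) (fun F hF => (hT F (hT' hF)).1.1) hc
  refine h1.trans ?_
  have h2 : ((d - 1 : ℕ) : ℝ) ≤ d := by exact_mod_cast Nat.sub_le _ _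
  calc C * (X : ℝ) ^ ε * ((d - 1 : ℕ) : ℝ) ≤ C * (X : ℝ) ^ ε * d := by gcongr
    _ = _ := by ring

end Pool.Agent.K3h53.FM
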