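import Pool.Agent.H951R3.PB.Main
import Pool.Agent.K3h53.FM.Int

/-!
# The number of places of bad reduction of an integral map
-/

set_option autoImplicit false

namespace Pool.Agent.K3h53.FM

open Real NumberField Pool.Agent.H951R3.PB IsDedekindDomain

variable {K : Type} [Field K] [NumberField K] {d : ℕ}

/-- good reduction from the resultant -/
theorem pot_of (hd : 1 ≤ d) {f : Fin 2 → MvPolynomial (Fin 2) K} (hf : ∀ i, (f i).IsHomogeneous d)
    (v : FinitePlace K) (h1 : v (rs f d) = 1) (h2 : ∀ i m, v ((f i).coeff m) ≤ 1) :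
    PotGood v.val d f := by
  classical
  obtain ⟨w, hwe⟩ := exists_ext_fin v
  have hw := ext_na v w hwe
  have hrs : rs (fL K f) d = algebraMap K (AlgebraicClosure K) (rs f d) :=
    rs_map (algebraMap K (AlgebraicClosure K)) f d
  have hwrs : w (rs (fL K f) d) = 1 := by
    rw [hrs, hwe]; exact h1
  have hrs0 : rs (fL K f) d ≠ 0 := by
    intro h
    rw [h, map_zero] at hwrs
    exact zero_ne_one hwrs
  have hhom : ∀ i, (fL K f i).IsHomogeneous d := fun i => (hf i).map _
  have hcoef : ∀ i m, w ((fL K f i).coeff m) ≤ 1 := by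
    intro i m
    rw [fL, MvPolynomial.coeff_map, hwe]
    exact h2 i m
  refine ⟨w, hwe, fL K f, hhom, ⟨hcoef, ?_⟩, 1, 1, by simp, one_ne_zero, by
    intro x; simp⟩
  intro x hx ⟨i0, hi0⟩
  have hunit : nrm w x = 1 := by
    unfold nrm
    apply le_antisymm (max_le (hx 0) (hx 1))
    rcases (show i0 = 0 ∨ i0 = 1 by omega) with h | h
    · subst h; exact hi0 ▸ le_max_left _ _
    · subst h; exact hi0 ▸ le_max_right _ _
  have hFib := fib_base w hd hhom hrs0
  rw [hwrs, Real.log_one] at hFib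
  obtain ⟨_, hlow⟩ := fib_bounds_na w hw hd hFib
  have hle : ∀ y : Fin 2 → AlgebraicClosure K, nrm w y = 1 → nrm w (ev (fL K f) y) ≤ 1 := by
    intro y hy
    have hy' : ∀ i, w (y i) ≤ 1 := by
      intro i
      rw [← hy]
      unfold nrm
      rcases (show i = 0 ∨ i = 1 by omega) with h | h
      · subst h; exact le_max_left _ _
      · subst h; exact le_max_right _ _
    exact max_le (F3_eval_le w hw _ (hcoef 0) y hy') (F3_eval_le w hw _ (hcoef 1) y hy')
  have hnn : ∀ y : Fin 2 → AlgebraicClosure K, 0 ≤ nrm w y := fun y =>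
    (w.nonneg _).trans (le_max_left _ _)
  have hS : Ssup w (ev (fL K f)) ≤ 0 := by
    unfold Ssup
    have : Nonempty {x : Fin 2 → AlgebraicClosure K // nrm w x = 1} := ⟨⟨x, hunit⟩⟩
    apply ciSup_le
    rintro ⟨y, hy⟩
    exact Real.log_nonpos (hnn _) (hle y hy)
  have h3 := hlow x hunit
  have h4 : 0 ≤ log (nrm w (ev (fL K f) x)) := by
    refine le_trans ?_ h3
    unfold tt
    have : (1 : ℝ) ≤ d := by exact_mod_cast hd
    nlinarith
  have hx0 : x ≠ 0 := by
    rintro rfl
    simp [nrm] at hunit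
  have h5 : ev (fL K f) x ≠ 0 := fib_ne_zero hFib hx0
  have h6 : 0 < nrm w (ev (fL K f) x) := by
    by_contra hneg
    apply h5
    have h7 : nrm w (ev (fL K f) x) ≤ 0 := not_lt.1 hneg
    funext i
    have : w (ev (fL K f) x i) ≤ 0 := by
      refine le_trans ?_ h7
      unfold nrm
      rcases (show i = 0 ∨ i = 1 by omega) with h | h
      · subst h; exact le_max_left _ _
      · subst h; exact le_max_right _ _
    exact w.eq_zero.1 (le_antisymm this (w.nonneg _))
  have h8 : 1 ≤ nrm w (ev (fL K f) x) := by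
    by_contra hneg
    have := Real.log_neg h6 (not_le.1 hneg)
    linarith
  have h9 := le_antisymm (hle x hunit) h8
  unfold nrm at h9
  rcases max_choice (w (ev (fL K f) x 0)) (w (ev (fL K f) x 1)) with h | h
  · exact ⟨0, by rw [h] at h9; exact h9⟩
  · exact ⟨1, by rw [h] at h9; exact h9⟩

/-- the values of a finite place are discrete -/
theorem place_half (v : FinitePlace K) {x : K} (hx0 : x ≠ 0) (hx : v x < 1) : v x ≤ 1 / 2 := by
  obtain ⟨w, hw⟩ : ∃ w : HeightOneSpectrum (𝓞 K), FinitePlace.mk w = v := ⟨v.maximalIdeal, v.mk_maximalIdeal⟩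
  rw [← hw, FinitePlace.mk_apply, NumberField.FinitePlace.norm_embedding,
    NumberField.HeightOneSpectrum.adicAbv_def] at hx ⊢
  have hx1 : w.valuation K x ≠ 0 := (Valuation.ne_zero_iff _).2 hx0
  set m : ℤ := Multiplicative.toAdd (WithZero.unzero hx1) with hm
  have hval : WithZeroMulInt.toNNReal (NumberField.HeightOneSpectrum.absNorm_ne_zero w)
      (w.valuation K x) = (Ideal.absNorm w.asIdeal : NNReal) ^ m := by
    rw [WithZeroMulInt.toNNReal_neg_apply _ hx1]
  have hN : 2 ≤ Ideal.absNorm w.asIdeal := NumberField.HeightOneSpectrum.one_lt_absNorm w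
  rw [hval] at hx ⊢
  have hNr : (2:ℝ) ≤ (Ideal.absNorm w.asIdeal : ℝ) := by exact_mod_cast hN
  push_cast at hx ⊢
  have hm1 : m ≤ -1 := by
    by_contra hcon
    push Not at hcon
    have h1 : (1 : ℝ) ≤ (Ideal.absNorm w.asIdeal : ℝ) ^ m := by
      apply one_le_zpow₀ (by linarith)
      omega
    linarith
  calc (Ideal.absNorm w.asIdeal : ℝ) ^ m ≤ (Ideal.absNorm w.asIdeal : ℝ) ^ (-1 : ℤ) :=
        zpow_le_zpow_right₀ (by linarith) hm1
    _ = (Ideal.absNorm w.asIdeal : ℝ)⁻¹ := by rw [zpow_neg_one]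
    _ ≤ 1 / 2 := by
        rw [one_div]
        exact inv_anti₀ (by norm_num) hNr

/-- integral elements have absolute value at most one -/
theorem place_int (v : FinitePlace K) {x : K} (hx : IsIntegral ℤ x) : v x ≤ 1 :=
  Pool.Agent.R323.int_le_one (v := v.val) (fun x y => FinitePlace.add_le v x y) hx

/-- **The number of places above an integer.** -/
theorem card_bad (R : ℤ) (hR : R ≠ 0) (T : Finset (FinitePlace K)) (hT : ∀ v ∈ T, v (R : K) ≠ 1) :
    (2 : ℝ) ^ T.card ≤ |(R : ℝ)| ^ Module.finrank ℚ K := by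
  classical
  have hRK : (R : K) ≠ 0 := by exact_mod_cast hR
  have h1 := FinitePlace.prod_eq_inv_abs_norm hRK
  have h2 : Algebra.norm ℚ (R : K) = (R : ℚ) ^ Module.finrank ℚ K := by
    have h3 := Algebra.norm_algebraMap (R := ℚ) (S := K) (R : ℚ)
    rw [map_intCast] at h3
    exact h3
  have hfs : (fun v : FinitePlace K => v (R : K)).HasFiniteMulSupport := FinitePlace.hasFiniteMulSupport hRK
  obtain ⟨S, hS⟩ : ∃ S : Finset (FinitePlace K), S = T ∪ hfs.toFinset := ⟨_, rfl⟩
  have e1 : ∏ᶠ v : FinitePlace K, v (R : K) = ∏ v ∈ S, v (R : K) := by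
    apply finprod_eq_prod_of_mulSupport_subset
    intro w hw
    rw [hS, Finset.coe_union]
    right
    exact Finset.mem_coe.mpr ((Set.Finite.mem_toFinset hfs).mpr hw)
  have e2 : ∏ v ∈ S, v (R : K) ≤ (1 / 2 : ℝ) ^ T.card := by
    have h3 : ∏ v ∈ S, v (R : K) ≤ ∏ v ∈ S, (if v ∈ T then (1 / 2 : ℝ) else 1) := by
      refine Finset.prod_le_prod (fun v _ => apply_nonneg _ _) fun v _ => ?_
      have h4 : v (R : K) ≤ 1 := place_int v (isIntegral_intCast R)
      split_ifs with h
      · exact place_half v hRK (lt_of_le_of_ne h4 (hT v h))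
      · exact h4
    refine h3.trans (le_of_eq ?_)
    rw [Finset.prod_ite_mem, Finset.prod_const]
    congr 2
    rw [hS]
    exact Finset.union_inter_cancel_left
  rw [e1, h2] at h1
  rw [h1] at e2
  push_cast at e2
  rw [abs_pow, one_div, inv_pow] at e2
  have h5 : (0 : ℝ) < (2 : ℝ) ^ T.card := by positivity
  exact (inv_le_inv₀ (by positivity) h5).1 e2

end Pool.Agent.K3h53.FM
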