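import Pool.Agent.K3h53.FM.Mom1

/-!
# The number of preperiodic points of a single integral map over a number field
-/

set_option autoImplicit false

namespace Pool.Agent.K3h53.FM

open Real NumberField Pool.Agent.H951R3.PB Pool.Agent.R323

variable {d : ℕ}

/-- a power of the logarithm -/
theorem log_bd {η : ℝ} (hη : 0 < η) {H : ℝ} (hH : 1 ≤ H) : (1 + Real.log H) ≤ (1 + 1 / η) * H ^ η := by
  have h1 := Real.log_le_rpow_div (by linarith : (0 : ℝ) ≤ H) hη
  have h2 : (1 : ℝ) ≤ H ^ η := Real.one_le_rpow hH hη.le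
  have h3 : H ^ η / η = 1 / η * H ^ η := by ring
  rw [h3] at h1
  linarith

/-- **The bound for a single map.** -/
theorem ind_bound (D d : ℕ) (hd : 2 ≤ d) (η : ℝ) (hη : 0 < η) : ∃ C : ℝ, 1 ≤ C ∧
    ∀ H : ℕ, 1 ≤ H → ∀ F : Fin 2 → Fin (d + 1) → ℤ, (∀ i j, |F i j| ≤ (H : ℤ)) →
      (∀ v : Fin 2 → Qb, ac (toQ F) v = 0 → v = 0) →
      ∀ (K : IntermediateField ℚ Qb) [NumberField K], Module.finrank ℚ K ≤ D →
      ∀ P : Finset (Fin 2 → K),
        (∀ z ∈ P, z ≠ 0 ∧ ∃ m n, m < n ∧ wg ((ac fun i j => ((F i j : ℤ) : K))^[m] z)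
          ((ac fun i j => ((F i j : ℤ) : K))^[n] z) = 0) →
        (∀ z ∈ P, ∀ z' ∈ P, z ≠ z' → wg z z' ≠ 0) → (P.card : ℝ) ≤ C * (H : ℝ) ^ η := by
  classical
  obtain ⟨C0, hC0, hmain⟩ := main_pre.{0} d hd D
  obtain ⟨C1, A1, hC1, hbez⟩ := bez d (by omega)
  have hl2 : 0 < Real.log 2 := Real.log_pos (by norm_num)
  -- constants
  obtain ⟨C3, hC3⟩ : ∃ C3 : ℝ, C3 = 1 + D / Real.log 2 * (Real.log C1 + A1) := ⟨_, rfl⟩
  have hlC1 : 0 ≤ Real.log C1 := Real.log_nonneg (by exact_mod_cast hC1)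
  have hC31 : 1 ≤ C3 := by
    rw [hC3]
    have : 0 ≤ (D : ℝ) / Real.log 2 * (Real.log C1 + A1) := by positivity
    linarith
  refine ⟨max 1 (C0 * (C3 * (1 + 1 / (η / 2))) ^ 2), le_max_left _ _,
    fun H hH F hFb hF0 K _ hKD P hP hPw => ?_⟩
  have hHr : (1 : ℝ) ≤ H := by exact_mod_cast hH
  have hlH : 0 ≤ Real.log H := Real.log_nonneg hHr
  -- the resultant
  have hrQ := (rsZ_ne_K (by omega : 1 ≤ d) (c := toQ F) (RingHom.id Qb) hF0).1
  have hmQ := rsZ_map (Int.castRingHom Qb) F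
  have hr : rsZ F ≠ 0 := by
    intro h
    rw [h, map_zero] at hmQ
    exact hrQ hmQ.symm
  obtain ⟨c, hc⟩ : ∃ c : Fin 2 → Fin (d + 1) → K, c = fun i j => ((F i j : ℤ) : K) := ⟨_, rfl⟩
  have hmK : ((rsZ F : ℤ) : K) = rsZ c := by
    have h1 := rsZ_map (Int.castRingHom K) F
    rw [hc]
    exact h1
  have hrs : Pool.Agent.H951R3.PB.rs (fm c) d = ((rsZ F : ℤ) : K) := by
    rw [rs_fm, hmK]
    rfl
  have hrK : ((rsZ F : ℤ) : K) ≠ 0 := by exact_mod_cast hr
  have hhom : ∀ i, (fm c i).IsHomogeneous d := fm_hom c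
  -- no zeros
  have hcQ : (fun i j => algebraMap K Qb (c i j)) = toQ F := by
    funext i j
    rw [hc]
    simp [toQ]
  have hne : ∀ v : Fin 2 → K, v ≠ 0 → ac c v ≠ 0 := by
    intro v hv h0
    apply hv
    have h1 : ac (toQ F) (fun i => algebraMap K Qb (v i)) = 0 := by
      rw [← hcQ, ← ac_map (algebraMap K Qb) c v, h0]
      funext i
      simp
    have h2 := hF0 _ h1
    funext i
    have h3 := congrFun h2 i
    simpa using h3
  have hz : ∀ x : Fin 2 → AlgebraicClosure K, (∀ i, MvPolynomial.aeval x (fm c i) = 0) → x = 0 := by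
    intro x hx
    have h1 : rs (fL K (fm c)) d ≠ 0 := by
      have h2 : rs (fL K (fm c)) d = algebraMap K (AlgebraicClosure K) (rs (fm c) d) :=
        Pool.Agent.H951R3.PB.rs_map _ (fm c) d
      rw [h2, hrs]
      exact (map_ne_zero _).2 hrK
    refine (Pool.Agent.H951R3.PB.rs_ne_zero_iff (f := fL K (fm c)) (by omega : 1 ≤ d)
      (fun i => (hhom i).map _)).1 h1 x ?_
    funext i
    have h3 := hx i
    rw [MvPolynomial.aeval_def] at h3
    simp only [ev, fL, MvPolynomial.eval_map, Pi.zero_apply]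
    exact h3
  -- the places of bad reduction
  have hcoef : ∀ (v : FinitePlace K) i m, v ((fm c i).coeff m) ≤ 1 := by
    intro v i m
    refine place_int v ?_
    unfold fm
    rw [MvPolynomial.coeff_sum]
    refine IsIntegral.sum _ fun j _ => ?_
    have h1 : (MvPolynomial.C (c i j) * MvPolynomial.X 0 ^ (j : ℕ) * MvPolynomial.X 1 ^ (d - (j : ℕ)) :
        MvPolynomial (Fin 2) K) = MvPolynomial.map (Int.castRingHom K)
          (MvPolynomial.C (F i j) * MvPolynomial.X 0 ^ (j : ℕ) * MvPolynomial.X 1 ^ (d - (j : ℕ))) := by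
      rw [hc]
      simp
    rw [h1, MvPolynomial.coeff_map]
    exact isIntegral_intCast _
  have hfs : {v : FinitePlace K | v ((rsZ F : ℤ) : K) ≠ 1}.Finite := FinitePlace.hasFiniteMulSupport hrK
  obtain ⟨T, hT⟩ : ∃ T : Finset (FinitePlace K), T = hfs.toFinset := ⟨_, rfl⟩
  have hTm : ∀ v, v ∈ T ↔ v ((rsZ F : ℤ) : K) ≠ 1 := by
    intro v
    rw [hT, Set.Finite.mem_toFinset]
    rfl
  have hgood : ∀ v, v ∉ T → PotGood v.val d (fm c) := by
    intro v hv
    rw [hTm, not_not] at hv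
    exact pot_of (by omega) hhom v (by rw [hrs]; exact hv) (hcoef v)
  have hcard := card_bad (K := K) (rsZ F) hr T fun v hv => (hTm v).1 hv
  -- the number of these places
  have hR1 : (1 : ℝ) ≤ |((rsZ F : ℤ) : ℝ)| := by
    have h1 : (1 : ℤ) ≤ |rsZ F| := Int.one_le_abs hr
    exact_mod_cast h1
  have hRb : |((rsZ F : ℤ) : ℝ)| ≤ C1 * (H : ℝ) ^ A1 := by
    have h1 := (hbez H hH F hFb).1
    exact_mod_cast h1
  have hs : 1 + (T.card : ℝ) ≤ C3 * (1 + Real.log H) := by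
    have h1 : (2 : ℝ) ^ T.card ≤ (C1 * (H : ℝ) ^ A1) ^ D :=
      hcard.trans ((pow_le_pow_right₀ hR1 hKD).trans (pow_le_pow_left₀ (by positivity) hRb D))
    have hC1r : (0 : ℝ) < C1 := by exact_mod_cast hC1
    have h2 := Real.log_le_log (by positivity) h1
    rw [Real.log_pow, Real.log_pow, Real.log_mul (by positivity) (by positivity), Real.log_pow] at h2
    have h3 : (T.card : ℝ) ≤ D / Real.log 2 * (Real.log C1 + A1 * Real.log H) := by
      rw [div_mul_eq_mul_div, le_div_iff₀ hl2]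
      exact h2
    have h4 : (D : ℝ) / Real.log 2 * (Real.log C1 + A1 * Real.log H) ≤
        D / Real.log 2 * (Real.log C1 + A1) * (1 + Real.log H) := by
      have h5 : 0 ≤ (D : ℝ) / Real.log 2 := by positivity
      have h6 : Real.log C1 + A1 * Real.log H ≤ (Real.log C1 + A1) * (1 + Real.log H) := by
        nlinarith [mul_nonneg hlC1 hlH, (Nat.cast_nonneg A1 : (0 : ℝ) ≤ A1)]
      calc (D : ℝ) / Real.log 2 * (Real.log C1 + A1 * Real.log H) ≤
            D / Real.log 2 * ((Real.log C1 + A1) * (1 + Real.log H)) := mul_le_mul_of_nonneg_left h6 h5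
        _ = _ := by ring
    rw [hC3]
    nlinarith
  -- the points
  have hPc := hmain K hKD (fm c) hhom hz T hgood (1 + T.card) (by linarith [(Nat.cast_nonneg T.card : (0 : ℝ) ≤ T.card)])
    (Or.inl (by linarith)) P (fun z hz => (hP z hz).1) (fun x hx y hy e he => by
      by_contra hxy
      apply hPw x hx y hy hxy
      rw [he]
      unfold wg
      simp only [Pi.smul_apply, smul_eq_mul]
      ring) (fun x hx => by
      obtain ⟨hx0, m, n, hmn, hw⟩ := hP x hx
      rw [← hc] at hw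
      obtain ⟨s, hs'⟩ := par_field (Pool.Agent.R559.NP.iter_ne0 hne hx0 m) hw
      refine ⟨m, n, hmn, s, ?_, ?_⟩
      · rintro rfl
        rw [zero_smul] at hs'
        exact Pool.Agent.R559.NP.iter_ne0 hne hx0 n hs'
      · have h1 : (fun v : Fin 2 → K => fun i => MvPolynomial.eval v (fm c i)) = ac c := by
          funext v
          exact ev_fm c v
        rw [h1]
        exact hs')
  -- the conclusion
  have hlog : Real.log (1 + (1 + (T.card : ℝ))) ≤ 1 + T.card := by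
    have h1 := Real.log_le_sub_one_of_pos (by positivity : (0 : ℝ) < 1 + (1 + (T.card : ℝ)))
    linarith
  have h1 : (P.card : ℝ) ≤ C0 * (1 + T.card) ^ 2 := by
    refine hPc.trans ?_
    have h2 : (0 : ℝ) ≤ C0 * (1 + T.card) := by positivity
    calc C0 * (1 + (T.card : ℝ)) * Real.log (1 + (1 + (T.card : ℝ))) ≤
          C0 * (1 + (T.card : ℝ)) * (1 + T.card) := mul_le_mul_of_nonneg_left hlog h2
      _ = _ := by ring
  have h2 : (1 + (T.card : ℝ)) ^ 2 ≤ (C3 * (1 + 1 / (η / 2))) ^ 2 * (H : ℝ) ^ η := by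
    have h3 : 1 + (T.card : ℝ) ≤ C3 * ((1 + 1 / (η / 2)) * (H : ℝ) ^ (η / 2)) :=
      hs.trans (mul_le_mul_of_nonneg_left (log_bd (half_pos hη) hHr) (by linarith))
    have h4 : (1 + (T.card : ℝ)) ^ 2 ≤ (C3 * ((1 + 1 / (η / 2)) * (H : ℝ) ^ (η / 2))) ^ 2 :=
      pow_le_pow_left₀ (by positivity) h3 2
    refine h4.trans (le_of_eq ?_)
    have h5 : ((H : ℝ) ^ (η / 2)) ^ 2 = (H : ℝ) ^ η := by
      rw [← Real.rpow_natCast, ← Real.rpow_mul (by linarith)]
      congr 1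
      push_cast
      ring
    calc (C3 * ((1 + 1 / (η / 2)) * (H : ℝ) ^ (η / 2))) ^ 2 =
          (C3 * (1 + 1 / (η / 2))) ^ 2 * ((H : ℝ) ^ (η / 2)) ^ 2 := by ring
      _ = _ := by rw [h5]
  calc (P.card : ℝ) ≤ C0 * (1 + T.card) ^ 2 := h1
    _ ≤ C0 * ((C3 * (1 + 1 / (η / 2))) ^ 2 * (H : ℝ) ^ η) := mul_le_mul_of_nonneg_left h2 hC0.le
    _ = C0 * (C3 * (1 + 1 / (η / 2))) ^ 2 * (H : ℝ) ^ η := by ring
    _ ≤ _ := by
        gcongr
        exact le_max_right _ _

end Pool.Agent.K3h53.FM
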