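import Pool.Agent.K3h53.FM.Mom2

/-!
# Moments of the number of preperiodic points
-/

set_option autoImplicit false

namespace Pool.Agent.K3h53.FM

open Pool.Agent.R323 Pool.Agent.R323.PN IntermediateField

variable {d : ℕ}

/-- the preperiodic points over a number field -/
def PreK (K : IntermediateField ℚ Qb) (F : Fin 2 → Fin (d + 1) → ℤ) :
    Set (Projectivization K (Fin 2 → K)) :=
  {p | ∃ m n : ℕ, m < n ∧ ∃ s : K, s ≠ 0 ∧
    (ac fun i j => ((F i j : ℤ) : K))^[n] p.rep = s • (ac fun i j => ((F i j : ℤ) : K))^[m] p.rep}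

/-- points over `K` as points of bounded degree -/
theorem pre_le (D : ℕ) (K : IntermediateField ℚ Qb) [NumberField K] (hK : Module.finrank ℚ K ≤ D)
    (F : Fin 2 → Fin (d + 1) → ℤ) (h0 : ∀ v : Fin 2 → Qb, ac (toQ F) v = 0 → v = 0) :
    (PreK K F).encard ≤ (TT (⊥ : IntermediateField ℚ Qb) (toQ F) D).encard := by
  classical
  have hcQ : (fun i j => algebraMap K Qb ((F i j : ℤ) : K)) = toQ F := by
    funext i j
    simp [toQ]
  have hz : ∀ p : Projectivization K (Fin 2 → K), (fun i => algebraMap K Qb (p.rep i)) ≠ 0 := by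
    intro p h
    apply p.rep_nonzero
    funext i
    have := congrFun h i
    simpa using this
  refine Set.encard_le_encard_of_injOn
    (f := fun p => Projectivization.mk Qb (fun i => algebraMap K Qb (p.rep i)) (hz p)) ?_ ?_
  · rintro p ⟨m, n, hmn, s, hs, h1⟩
    refine mem_TT ⊥ h0 (hz p) ⟨m, n, hmn, ?_⟩ ⟨K, bot_le, inferInstance, ?_, _, fun l => ?_, 1, one_ne_zero,
      (one_smul _ _).symm⟩
    · have e1 := ac_iter_map (algebraMap K Qb) (fun i j => ((F i j : ℤ) : K)) p.rep n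
      have e2 := ac_iter_map (algebraMap K Qb) (fun i j => ((F i j : ℤ) : K)) p.rep m
      rw [hcQ] at e1 e2
      rw [← e1, ← e2, h1]
      unfold wg
      simp only [Pi.smul_apply, smul_eq_mul, map_mul]
      ring
    · rw [IntermediateField.finrank_bot, mul_one]
      exact hK
    · exact (p.rep l).2
  · intro p _ q _ hpq
    simp only at hpq
    rw [Projectivization.mk_eq_mk_iff'] at hpq
    obtain ⟨a, ha⟩ := hpq
    have hw : wg p.rep q.rep = 0 := by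
      have h1 : wg (fun i => algebraMap K Qb (p.rep i)) (fun i => algebraMap K Qb (q.rep i)) = 0 := by
        rw [← ha]
        unfold wg
        simp only [Pi.smul_apply, smul_eq_mul]
        ring
      unfold wg at h1 ⊢
      rw [← map_mul, ← map_mul, ← map_sub] at h1
      exact (map_eq_zero _).1 h1
    obtain ⟨r, hr⟩ := par_field p.rep_nonzero hw
    have hr0 : r ≠ 0 := by
      rintro rfl
      rw [zero_smul] at hr
      exact q.rep_nonzero hr
    rw [← p.mk_rep, ← q.mk_rep, Projectivization.mk_eq_mk_iff']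
    refine ⟨r⁻¹, ?_⟩
    rw [hr, smul_smul, inv_mul_cancel₀ hr0, one_smul]

/-- **All moments are bounded.** -/
theorem moments (D d k : ℕ) (hd : 2 ≤ d) (δ : ℝ) (hδ : 0 < δ) : ∃ C : ℝ,
    ∀ H : ℕ, 1 ≤ H → ∀ T : Finset (Fin 2 → Fin (d + 1) → ℤ),
      (∀ F ∈ T, (∀ i j, |F i j| ≤ (H : ℤ)) ∧ ∀ v : Fin 2 → Qb, ac (toQ F) v = 0 → v = 0) →
      ∀ μ : (Fin 2 → Fin (d + 1) → ℤ) → ℕ, (∀ F ∈ T, ∃ (K : IntermediateField ℚ Qb) (_ : NumberField K),
        Module.finrank ℚ K ≤ D ∧ (μ F : ℕ∞) ≤ (PreK K F).encard) →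
      (∑ F ∈ T, (μ F : ℝ) ^ k ≤ C * (T.card + (H : ℝ) ^ (4 + δ))) ∧
      ((∀ F ∈ T, ∀ j, j ≠ 0 → F 1 j = 0) → ∑ F ∈ T, (μ F : ℝ) ^ k ≤ C * (T.card + (H : ℝ) ^ (3 + δ))) := by
  classical
  obtain ⟨N, C1, hC1, h1⟩ := count_int D d hd (δ / 2) (by positivity)
  obtain ⟨η, hη⟩ : ∃ η : ℝ, η = δ / 2 / (k + 1) := ⟨_, rfl⟩
  have hη0 : 0 < η := by
    rw [hη]
    positivity
  have hηk : η * k ≤ δ / 2 := by
    rw [hη, div_mul_eq_mul_div, div_le_iff₀ (by positivity)]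
    nlinarith
  obtain ⟨C2, hC2, h2⟩ := ind_bound D d hd η hη0
  refine ⟨(N : ℝ) ^ k + C1 * C2 ^ k, fun H hH T hT μ hμ => ?_⟩
  have hHr : (1 : ℝ) ≤ H := by exact_mod_cast hH
  have hH0 : (0 : ℝ) < H := by linarith
  -- the exceptional maps
  have hexc : ∀ F ∈ T.filter (fun F => N < μ F), (∀ i j, |F i j| ≤ (H : ℤ)) ∧
      (∀ v : Fin 2 → Qb, ac (toQ F) v = 0 → v = 0) ∧
        (N : ℕ∞) < (TT (⊥ : IntermediateField ℚ Qb) (toQ F) D).encard := by
    intro F hF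
    rw [Finset.mem_filter] at hF
    obtain ⟨K, hK, hKD, hm⟩ := hμ F hF.1
    refine ⟨(hT F hF.1).1, (hT F hF.1).2, ?_⟩
    refine lt_of_lt_of_le ?_ (hm.trans (pre_le D K hKD F (hT F hF.1).2))
    exact_mod_cast hF.2
  have hsingle : ∀ F ∈ T, (μ F : ℝ) ≤ C2 * (H : ℝ) ^ η := by
    intro F hF
    obtain ⟨K, hK, hKD, hm⟩ := hμ F hF
    rcases Nat.eq_zero_or_pos (μ F) with h0 | h0
    · rw [h0]
      push_cast
      positivity
    · obtain ⟨P, hP1, hP2, hP3⟩ := many_of' (fun i j => ((F i j : ℤ) : K)) (μ F - 1) (by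
        refine lt_of_lt_of_le ?_ hm
        have : μ F - 1 < μ F := by omega
        exact_mod_cast this)
      have h3 := h2 H hH F (hT F hF).1 (hT F hF).2 K hKD P hP2 hP3
      have h4 : (μ F : ℝ) ≤ P.card := by
        have : μ F ≤ P.card := by omega
        exact_mod_cast this
      exact h4.trans h3
  have hsum : ∑ F ∈ T, (μ F : ℝ) ^ k ≤
      (N : ℝ) ^ k * T.card + (T.filter (fun F => N < μ F)).card * (C2 ^ k * (H : ℝ) ^ (δ / 2)) := by
    rw [← Finset.sum_filter_add_sum_filter_not T (fun F => N < μ F), add_comm]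
    refine add_le_add ?_ ?_
    · have h3 : ∑ F ∈ T.filter (fun F => ¬ N < μ F), (μ F : ℝ) ^ k ≤
          ∑ F ∈ T.filter (fun F => ¬ N < μ F), (N : ℝ) ^ k := by
        refine Finset.sum_le_sum fun F hF => ?_
        have h4 := (Finset.mem_filter.1 hF).2
        push Not at h4
        exact pow_le_pow_left₀ (Nat.cast_nonneg _) (by exact_mod_cast h4) k
      refine h3.trans ?_
      rw [Finset.sum_const, nsmul_eq_mul, mul_comm]
      refine mul_le_mul_of_nonneg_left ?_ (by positivity)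
      exact_mod_cast Finset.card_filter_le _ _
    · have h3 : ∑ F ∈ T.filter (fun F => N < μ F), (μ F : ℝ) ^ k ≤
          ∑ F ∈ T.filter (fun F => N < μ F), C2 ^ k * (H : ℝ) ^ (δ / 2) := by
        refine Finset.sum_le_sum fun F hF => ?_
        have h4 := hsingle F (Finset.mem_filter.1 hF).1
        calc (μ F : ℝ) ^ k ≤ (C2 * (H : ℝ) ^ η) ^ k := pow_le_pow_left₀ (Nat.cast_nonneg _) h4 k
          _ = C2 ^ k * (H : ℝ) ^ (η * k) := by
              rw [mul_pow, ← Real.rpow_natCast ((H : ℝ) ^ η) k, ← Real.rpow_mul hH0.le]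
          _ ≤ C2 ^ k * (H : ℝ) ^ (δ / 2) := by
              refine mul_le_mul_of_nonneg_left ?_ (by positivity)
              exact Real.rpow_le_rpow_of_exponent_le hHr hηk
      refine h3.trans (le_of_eq ?_)
      rw [Finset.sum_const, nsmul_eq_mul]
  have hfin : ∀ r : ℝ, ((T.filter (fun F => N < μ F)).card : ℝ) ≤ C1 * (H : ℝ) ^ (r + δ / 2) →
      ∑ F ∈ T, (μ F : ℝ) ^ k ≤ ((N : ℝ) ^ k + C1 * C2 ^ k) * (T.card + (H : ℝ) ^ (r + δ)) := by
    intro r hr
    have e1 : (H : ℝ) ^ (r + δ / 2) * (H : ℝ) ^ (δ / 2) = (H : ℝ) ^ (r + δ) := by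
      rw [← Real.rpow_add hH0]
      congr 1
      ring
    have e2 : ((T.filter (fun F => N < μ F)).card : ℝ) * (C2 ^ k * (H : ℝ) ^ (δ / 2)) ≤
        C1 * C2 ^ k * (H : ℝ) ^ (r + δ) := by
      have h3 : (0 : ℝ) ≤ C2 ^ k * (H : ℝ) ^ (δ / 2) := by positivity
      calc ((T.filter (fun F => N < μ F)).card : ℝ) * (C2 ^ k * (H : ℝ) ^ (δ / 2)) ≤
            C1 * (H : ℝ) ^ (r + δ / 2) * (C2 ^ k * (H : ℝ) ^ (δ / 2)) := mul_le_mul_of_nonneg_right hr h3
        _ = C1 * C2 ^ k * ((H : ℝ) ^ (r + δ / 2) * (H : ℝ) ^ (δ / 2)) := by ring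
        _ = _ := by rw [e1]
    have e3 : (0 : ℝ) ≤ (N : ℝ) ^ k * (H : ℝ) ^ (r + δ) := by positivity
    have e4 : (0 : ℝ) ≤ C1 * C2 ^ k * T.card := by positivity
    calc ∑ F ∈ T, (μ F : ℝ) ^ k ≤ (N : ℝ) ^ k * T.card + C1 * C2 ^ k * (H : ℝ) ^ (r + δ) :=
          hsum.trans (add_le_add le_rfl e2)
      _ ≤ (N : ℝ) ^ k * T.card + C1 * C2 ^ k * (H : ℝ) ^ (r + δ) +
          ((N : ℝ) ^ k * (H : ℝ) ^ (r + δ) + C1 * C2 ^ k * T.card) := by linarith
      _ = _ := by ring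
  obtain ⟨h3, h4⟩ := h1 H hH _ hexc
  refine ⟨hfin 4 h3, fun hp => hfin 3 (h4 fun F hF => hp F (Finset.mem_filter.1 hF).1)⟩

end Pool.Agent.K3h53.FM
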