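import Pool.Agent.K3h53.FM.Grid
import Pool.Agent.R559.NP.DynK

/-!
# The conjugates of a pair of binary forms form the image of a polynomial map
-/

set_option autoImplicit false

namespace Pool.Agent.K3h53.FM

open Polynomial Pool.Agent.R323

section

variable {K : Type} [Field K] {d : ℕ}

/-- the `l`-th form at `(b₀₀ X + b₀₁, b₁₀ X + b₁₁)` -/
noncomputable def pl (G : Fin 2 → Fin (d + 1) → K) (B : Fin 2 × Fin 2 → K) (l : Fin 2) : K[X] :=
  ∑ m : Fin (d + 1), C (G l m) * (C (B (0, 0)) * X + C (B (0, 1))) ^ (m : ℕ) *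
    (C (B (1, 0)) * X + C (B (1, 1))) ^ (d - (m : ℕ))

/-- the coefficients of `adj B · G ∘ B` -/
noncomputable def Orb (G : Fin 2 → Fin (d + 1) → K) (B : Fin 2 × Fin 2 → K) :
    Fin 2 × Fin (d + 1) → K := fun l =>
  if l.1 = 0 then B (1, 1) * (pl G B 0).coeff (l.2 : ℕ) - B (0, 1) * (pl G B 1).coeff (l.2 : ℕ)
  else B (0, 0) * (pl G B 1).coeff (l.2 : ℕ) - B (1, 0) * (pl G B 0).coeff (l.2 : ℕ)

theorem pl_eval (G : Fin 2 → Fin (d + 1) → K) (B : Fin 2 × Fin 2 → K) (l : Fin 2) (t : K) :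
    (pl G B l).eval t = ac G (fun i => B (i, 0) * t + B (i, 1)) l := by
  unfold pl ac
  rw [Polynomial.eval_finsetSum]
  refine Finset.sum_congr rfl fun m _ => ?_
  simp

theorem pl_smul (G : Fin 2 → Fin (d + 1) → K) (B : Fin 2 × Fin 2 → K) (l : Fin 2) (s : K) :
    pl G (fun q => s * B q) l = C (s ^ d) * pl G B l := by
  unfold pl
  rw [Finset.mul_sum]
  refine Finset.sum_congr rfl fun m _ => ?_
  have h1 : C (s * B (0, 0)) * X + C (s * B (0, 1)) = C s * (C (B (0, 0)) * X + C (B (0, 1))) := by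
    rw [C_mul, C_mul]; ring
  have h2 : C (s * B (1, 0)) * X + C (s * B (1, 1)) = C s * (C (B (1, 0)) * X + C (B (1, 1))) := by
    rw [C_mul, C_mul]; ring
  have h3 : (C (s ^ d) : K[X]) = C s ^ (m : ℕ) * C s ^ (d - (m : ℕ)) := by
    rw [← pow_add, ← C_pow]
    congr 2
    have := m.2
    omega
  rw [h1, h2, h3, mul_pow, mul_pow]
  ring

theorem Orb_smul (G : Fin 2 → Fin (d + 1) → K) (B : Fin 2 × Fin 2 → K) (s : K)
    (l : Fin 2 × Fin (d + 1)) : Orb G (fun q => s * B q) l = s ^ (d + 1) * Orb G B l := by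
  unfold Orb
  rw [pl_smul, pl_smul, coeff_C_mul, coeff_C_mul]
  split_ifs <;> ring

/-- **The constant.** -/
theorem key [IsAlgClosed K] {F G : Fin 2 → Fin (d + 1) → K} (hF : ∀ v : Fin 2 → K, ac F v = 0 → v = 0)
    {A : Matrix (Fin 2) (Fin 2) K} (hA : A.det ≠ 0) (h : ∀ v : Fin 2 → K, v ≠ 0 → ∃ c : K, c ≠ 0 ∧
      ac G (A.mulVec v) = c • A.mulVec (ac F v)) :
    ∃ s : K, s ≠ 0 ∧ ∀ l, pl G (fun q => A q.1 q.2) l =
      C s * (C (A l 0) * pc (F 0) + C (A l 1) * pc (F 1)) := by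
  classical
  obtain ⟨q, hq⟩ : ∃ q : Fin 2 → K[X], ∀ l, q l = C (A l 0) * pc (F 0) + C (A l 1) * pc (F 1) :=
    ⟨fun l => C (A l 0) * pc (F 0) + C (A l 1) * pc (F 1), fun l => rfl⟩
  obtain ⟨p, hp⟩ : ∃ p : Fin 2 → K[X], ∀ l, p l = pl G (fun q => A q.1 q.2) l :=
    ⟨fun l => pl G (fun q => A q.1 q.2) l, fun l => rfl⟩
  have hFe : ∀ (t : K) (i : Fin 2), (pc (F i)).eval t = ac F ![t, 1] i := by
    intro t i
    have h1 := he_eval (pc_natDegree (F i)) ![t, 1] (by simp)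
    rw [he_pc] at h1
    simpa using h1
  have hqe : ∀ (t : K) (l : Fin 2), (q l).eval t = A.mulVec (ac F ![t, 1]) l := by
    intro t l
    rw [hq, mulVec_two]
    simp only [eval_add, eval_mul, eval_C, hFe]
  have hv0 : ∀ t : K, (![t, 1] : Fin 2 → K) ≠ 0 := by
    intro t h0
    have := congrFun h0 1
    simp at this
  have hpe : ∀ (t : K) (l : Fin 2), (p l).eval t = ac G (A.mulVec ![t, 1]) l := by
    intro t l
    rw [hp, pl_eval]
    congr 2
    funext i
    rw [mulVec_two]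
    simp
  choose! c hc hcv using h
  have hrel : ∀ (t : K) (l : Fin 2), (p l).eval t = c ![t, 1] * (q l).eval t := by
    intro t l
    rw [hpe, hqe, hcv _ (hv0 t)]
    rfl
  have hne : ∀ t : K, ∃ l, (q l).eval t ≠ 0 := by
    intro t
    by_contra hcon
    push Not at hcon
    have h1 : A.mulVec (ac F ![t, 1]) = 0 := by
      funext l
      rw [← hqe]
      exact hcon l
    exact hv0 t (hF _ (Matrix.eq_zero_of_mulVec_eq_zero hA h1))
  have hcop : IsCoprime (q 0) (q 1) := by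
    rw [Polynomial.isCoprime_iff_aeval_ne_zero_of_isAlgClosed K K]
    intro t
    obtain ⟨l, hl⟩ := hne t
    fin_cases l
    · left
      simpa using hl
    · right
      simpa using hl
  have hcross : p 0 * q 1 = p 1 * q 0 := by
    refine Polynomial.funext fun t => ?_
    rw [eval_mul, eval_mul, hrel, hrel]
    ring
  obtain ⟨u, w, huw⟩ := hcop
  obtain ⟨r, hr⟩ : ∃ r : K[X], r = u * p 0 + w * p 1 := ⟨_, rfl⟩
  have hr0 : r * q 0 = p 0 := by
    rw [hr]
    linear_combination p 0 * huw - w * hcross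
  have hr1 : r * q 1 = p 1 := by
    rw [hr]
    linear_combination p 1 * huw + u * hcross
  have hrl : ∀ l, p l = r * q l := by
    intro l
    fin_cases l
    · exact hr0.symm
    · exact hr1.symm
  have hrc : ∀ t : K, r.eval t ≠ 0 := by
    intro t
    obtain ⟨l, hl⟩ := hne t
    have h1 := hrel t l
    rw [hrl l, eval_mul] at h1
    rw [mul_right_cancel₀ hl h1]
    exact hc _ (hv0 t)
  have hdeg : r.degree = 0 := by
    by_contra hcon
    obtain ⟨t, ht⟩ := IsAlgClosed.exists_root r hcon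
    exact hrc t ht
  refine ⟨r.coeff 0, ?_, fun l => ?_⟩
  · have h1 := hrc 0
    rwa [← coeff_zero_eq_eval_zero] at h1
  · rw [← hq, ← hp, hrl l, ← Polynomial.eq_C_of_degree_eq_zero hdeg]

/-- **The conjugates.** -/
theorem orb_of [IsAlgClosed K] {F G : Fin 2 → Fin (d + 1) → K} (hF : ∀ v : Fin 2 → K, ac F v = 0 → v = 0)
    {A : Matrix (Fin 2) (Fin 2) K} (hA : A.det ≠ 0) (h : ∀ v : Fin 2 → K, v ≠ 0 → ∃ c : K, c ≠ 0 ∧
      ac G (A.mulVec v) = c • A.mulVec (ac F v)) :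
    ∃ τ : K, ∀ l : Fin 2 × Fin (d + 1), F l.1 l.2 = Orb G (fun q => τ * A q.1 q.2) l := by
  obtain ⟨s, hs, hkey⟩ := key hF hA h
  obtain ⟨τ, hτ⟩ := IsAlgClosed.exists_pow_nat_eq (s⁻¹ * (A.det)⁻¹) (Nat.succ_pos d)
  refine ⟨τ, fun l => ?_⟩
  have hsm := Orb_smul G (fun q : Fin 2 × Fin 2 => A q.1 q.2) τ l
  have hτ' : τ ^ (d + 1) = s⁻¹ * (A.det)⁻¹ := hτ
  rw [hτ'] at hsm
  refine Eq.trans ?_ hsm.symm
  have hdet := Matrix.det_fin_two A
  have hco : ∀ i, (pc (F i)).coeff (l.2 : ℕ) = F i l.2 := by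
    intro i
    rw [pc_coeff, dif_pos l.2.2]
  have h0 : (pl G (fun q => A q.1 q.2) 0).coeff (l.2 : ℕ) = s * (A 0 0 * F 0 l.2 + A 0 1 * F 1 l.2) := by
    rw [hkey, coeff_C_mul, coeff_add, coeff_C_mul, coeff_C_mul, hco, hco]
  have h1 : (pl G (fun q => A q.1 q.2) 1).coeff (l.2 : ℕ) = s * (A 1 0 * F 0 l.2 + A 1 1 * F 1 l.2) := by
    rw [hkey, coeff_C_mul, coeff_add, coeff_C_mul, coeff_C_mul, hco, hco]
  unfold Orb
  obtain ⟨l1, l2⟩ := l
  simp only at h0 h1 ⊢
  fin_cases l1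
  · simp only [Fin.zero_eta, if_true]
    rw [h0, h1]
    field_simp
    rw [hdet]
    ring
  · simp only [Fin.mk_one, one_ne_zero, if_false]
    rw [h0, h1]
    field_simp
    rw [hdet]
    ring

end

section

variable {K : Type} [Field K] {d : ℕ} {ι : Type*} [Fintype ι]

/-- all coefficients are polynomial functions of degree at most `m` in each variable -/
def PV (m : ℕ) (f : (ι → K) → K[X]) : Prop := ∀ j, (fun a => (f a).coeff j) ∈ V K ι m

theorem PV.mono {m m' : ℕ} (h : m ≤ m') {f : (ι → K) → K[X]} (hf : PV m f) : PV m' f :=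
  fun j => V_mono h (hf j)

theorem PV.C {m : ℕ} {f : (ι → K) → K} (hf : f ∈ V K ι m) : PV m fun a => C (f a) := by
  intro j
  by_cases hj : j = 0
  · subst hj
    simpa using hf
  · have : (fun a : ι → K => (Polynomial.C (f a)).coeff j) = fun _ => 0 := by
      funext a
      rw [coeff_C, if_neg hj]
    rw [this]
    exact V_const m 0

theorem PV.one (m : ℕ) : PV m (fun _ : ι → K => (1 : K[X])) := by
  have h := PV.C (V_const (k := K) (ι := ι) m 1)
  simpa using h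

theorem PV.X (m : ℕ) : PV m (fun _ : ι → K => (Polynomial.X : K[X])) :=
  fun _ => V_const m _

theorem PV.add {m : ℕ} {f g : (ι → K) → K[X]} (hf : PV m f) (hg : PV m g) : PV m fun a => f a + g a := by
  intro j
  have h := (V K ι m).add_mem (hf j) (hg j)
  convert h using 1
  funext a
  simp

theorem PV.mul {m m' : ℕ} {f g : (ι → K) → K[X]} (hf : PV m f) (hg : PV m' g) :
    PV (m + m') fun a => f a * g a := by
  intro j
  have h := V_sum (k := K) (ι := ι) (Finset.HasAntidiagonal.antidiagonal j) (m := m + m')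
    (f := fun x a => (f a).coeff x.1 * (g a).coeff x.2) fun x _ => V_mul (hf x.1) (hg x.2)
  convert h using 1
  funext a
  rw [coeff_mul]

theorem PV.pow {m : ℕ} {f : (ι → K) → K[X]} (hf : PV m f) (n : ℕ) : PV (n * m) fun a => f a ^ n := by
  induction n with
  | zero =>
    simpa using PV.one (K := K) (ι := ι) 0
  | succ n ih =>
    have h := ih.mul hf
    have h2 : (fun a => f a ^ (n + 1)) = fun a => f a ^ n * f a := by
      funext a
      rw [pow_succ]
    rw [h2]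
    exact h.mono (le_of_eq (by ring))

theorem PV.sum {m : ℕ} {κ : Type*} (s : Finset κ) {f : κ → (ι → K) → K[X]} (hf : ∀ l ∈ s, PV m (f l)) :
    PV m fun a => ∑ l ∈ s, f l a := by
  intro j
  have h := V_sum (k := K) (ι := ι) s (m := m) (f := fun l a => (f l a).coeff j) fun l hl => hf l hl j
  convert h using 1
  funext a
  rw [Polynomial.finsetSum_coeff]

theorem pl_PV (G : Fin 2 → Fin (d + 1) → K) (B : (ι → K) → Fin 2 × Fin 2 → K)
    (hB : ∀ q, (fun a => B a q) ∈ V K ι 1) (l : Fin 2) : PV d fun a => pl G (B a) l := by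
  unfold pl
  refine PV.sum _ fun m _ => ?_
  have h1 : ∀ i, PV 1 fun a => (Polynomial.C (B a (i, 0)) * Polynomial.X + Polynomial.C (B a (i, 1)) : K[X]) := by
    intro i
    refine PV.add ?_ (PV.C (hB _))
    exact (PV.mul (PV.C (hB _)) (PV.X 0)).mono (by omega)
  have h2 := ((PV.C (V_const (k := K) (ι := ι) 0 (G l m))).mul ((h1 0).pow (m : ℕ))).mul
    ((h1 1).pow (d - (m : ℕ)))
  refine h2.mono ?_
  have := m.2
  omega

theorem Orb_mem (G : Fin 2 → Fin (d + 1) → K) (B : (ι → K) → Fin 2 × Fin 2 → K)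
    (hB : ∀ q, (fun a => B a q) ∈ V K ι 1) (l : Fin 2 × Fin (d + 1)) :
    (fun a => Orb G (B a) l) ∈ V K ι (d + 1) := by
  have h1 : ∀ (q : Fin 2 × Fin 2) (i : Fin 2),
      (fun a => B a q * (pl G (B a) i).coeff (l.2 : ℕ)) ∈ V K ι (d + 1) := by
    intro q i
    exact V_mono (by omega) (V_mul (hB q) (pl_PV G B hB i l.2))
  unfold Orb
  split_ifs
  · exact (V K ι (d + 1)).sub_mem (h1 (1, 1) 0) (h1 (0, 1) 1)
  · exact (V K ι (d + 1)).sub_mem (h1 (0, 0) 1) (h1 (1, 0) 0)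

end

end Pool.Agent.K3h53.FM
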