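import Pool.Agent.K3h53.FM.Orb

/-!
# Conjugate polynomials are conjugate by an affine map
-/

set_option autoImplicit false

namespace Pool.Agent.K3h53.FM

open Polynomial Pool.Agent.R323

section

variable {K : Type} [Field K] {d : ℕ}

/-- the second form is `b y ^ d` -/
def IsPl (F : Fin 2 → Fin (d + 1) → K) : Prop := ∀ j : Fin (d + 1), j ≠ 0 → F 1 j = 0

/-- affine conjugacy -/
def Aff (F G : Fin 2 → Fin (d + 1) → K) : Prop :=
  ∃ A : Matrix (Fin 2) (Fin 2) K, A.det ≠ 0 ∧ A 1 0 = 0 ∧ ∀ v : Fin 2 → K, v ≠ 0 → ∃ c : K, c ≠ 0 ∧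
    ac G (A.mulVec v) = c • A.mulVec (ac F v)

theorem Aff.symm {F G : Fin 2 → Fin (d + 1) → K} (h : Aff F G) : Aff G F := by
  obtain ⟨A, hA, hA0, h⟩ := h
  have hu : IsUnit A.det := isUnit_iff_ne_zero.2 hA
  have hA' : (A⁻¹).det ≠ 0 := by
    rw [Matrix.det_nonsing_inv]
    exact isUnit_iff_ne_zero.1 (hu.ringInverse)
  refine ⟨A⁻¹, hA', ?_, fun v hv => ?_⟩
  · rw [Matrix.inv_def, Matrix.adjugate_fin_two]
    simp [hA0]
  obtain ⟨c, hc, h1⟩ := h (A⁻¹.mulVec v) (Pool.Agent.R559.NP.mulVec_ne hA' hv)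
  rw [Matrix.mulVec_mulVec, Matrix.mul_nonsing_inv A hu, Matrix.one_mulVec] at h1
  refine ⟨c⁻¹, inv_ne_zero hc, ?_⟩
  rw [h1, Matrix.mulVec_smul, Matrix.mulVec_mulVec, Matrix.nonsing_inv_mul A hu, Matrix.one_mulVec, smul_smul,
    inv_mul_cancel₀ hc, one_smul]

theorem Aff.trans {F G H : Fin 2 → Fin (d + 1) → K} (h : Aff F G) (h' : Aff G H) : Aff F H := by
  obtain ⟨A, hA, hA0, h⟩ := h
  obtain ⟨B, hB, hB0, h'⟩ := h'
  refine ⟨B * A, by rw [Matrix.det_mul]; exact mul_ne_zero hB hA, ?_, fun v hv => ?_⟩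
  · rw [Matrix.mul_apply, Fin.sum_univ_two, hB0, hA0]
    simp
  obtain ⟨c, hc, h1⟩ := h v hv
  obtain ⟨c', hc', h2⟩ := h' (A.mulVec v) (Pool.Agent.R559.NP.mulVec_ne hA hv)
  refine ⟨c' * c, mul_ne_zero hc' hc, ?_⟩
  rw [← Matrix.mulVec_mulVec, h2, h1, Matrix.mulVec_smul, smul_smul, Matrix.mulVec_mulVec]

/-- the power map -/
def Pw (K : Type) [Field K] (d : ℕ) : Fin 2 → Fin (d + 1) → K := fun i j =>
  if i = 0 then (if j = Fin.last d then 1 else 0) else (if j = 0 then 1 else 0)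

theorem ac_Pw (v : Fin 2 → K) : ac (Pw K d) v = ![v 0 ^ d, v 1 ^ d] := by
  funext i
  fin_cases i
  · simp only [ac, Pw, Fin.zero_eta, if_true, ite_mul, one_mul, zero_mul, Matrix.cons_val_zero]
    rw [Finset.sum_ite_eq' Finset.univ (Fin.last d)]
    simp
  · simp only [ac, Pw, Fin.mk_one, one_ne_zero, if_false, ite_mul, one_mul, zero_mul,
      Matrix.cons_val_one]
    rw [Finset.sum_ite_eq' Finset.univ (0 : Fin (d + 1))]
    simp

theorem ac_pl {F : Fin 2 → Fin (d + 1) → K} (h : IsPl F) (v : Fin 2 → K) :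
    ac F v 1 = F 1 0 * v 1 ^ d := by
  unfold ac
  rw [Finset.sum_eq_single (0 : Fin (d + 1))]
  · simp
  · intro j _ hj
    rw [h j hj]
    simp
  · intro h
    exact absurd (Finset.mem_univ _) h

theorem pl_ne [IsAlgClosed K] (hd : 1 ≤ d) {F : Fin 2 → Fin (d + 1) → K} (h : IsPl F)
    (hF : ∀ v : Fin 2 → K, ac F v = 0 → v = 0) : F 1 0 ≠ 0 := by
  intro h0
  have h1 : ∀ v, ac F v 1 = 0 := by
    intro v
    rw [ac_pl h, h0, zero_mul]
  have hFe : ∀ (t : K) (i : Fin 2), (pc (F i)).eval t = ac F ![t, 1] i := by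
    intro t i
    have h1 := he_eval (pc_natDegree (F i)) ![t, 1] (by simp)
    rw [he_pc] at h1
    simpa using h1
  by_cases hdeg : (pc (F 0)).degree = 0
  · have h2 : pc (F 0) = C ((pc (F 0)).coeff 0) := Polynomial.eq_C_of_degree_eq_zero hdeg
    have h3 : F 0 (Fin.last d) = 0 := by
      have h4 := pc_coeff (F 0) d
      rw [dif_pos (by omega), h2, coeff_C, if_neg (by omega)] at h4
      exact h4.symm
    have h5 : ac F ![1, 0] = 0 := by
      funext i
      fin_cases i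
      · simp only [ac, Fin.zero_eta, Matrix.cons_val_zero, one_pow, mul_one, Matrix.cons_val_one,
          Pi.zero_apply]
        refine Finset.sum_eq_zero fun j _ => ?_
        by_cases hj : j = Fin.last d
        · rw [hj, h3, zero_mul]
        · rw [zero_pow, mul_zero]
          intro h6
          apply hj
          apply Fin.ext
          have := j.2
          rw [Fin.val_last]
          omega
      · exact h1 _
    have h6 := congrFun (hF _ h5) 0
    simp at h6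
  · obtain ⟨t, ht⟩ := IsAlgClosed.exists_root _ hdeg
    have h5 : ac F ![t, 1] = 0 := by
      funext i
      fin_cases i
      · show ac F ![t, 1] 0 = 0
        rw [← hFe]
        exact ht
      · exact h1 _
    have h6 := congrFun (hF _ h5) 1
    simp at h6

/-- a polynomial with a second exceptional point is conjugate to a power by an affine map -/
theorem tot [IsAlgClosed K] (hd : 2 ≤ d) {F G : Fin 2 → Fin (d + 1) → K}
    (hF : ∀ v : Fin 2 → K, ac F v = 0 → v = 0) (hG : ∀ v : Fin 2 → K, ac G v = 0 → v = 0)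
    (hFp : IsPl F) (hGp : IsPl G) {A : Matrix (Fin 2) (Fin 2) K} (hA : A.det ≠ 0)
    (h : ∀ v : Fin 2 → K, v ≠ 0 → ∃ c : K, c ≠ 0 ∧ ac G (A.mulVec v) = c • A.mulVec (ac F v))
    (h10 : A 1 0 ≠ 0) : Aff G (Pw K d) := by
  obtain ⟨s, hs, hkey⟩ := key hF hA h
  obtain ⟨b, hb⟩ : ∃ b, b = F 1 0 := ⟨_, rfl⟩
  obtain ⟨b', hb'⟩ : ∃ b', b' = G 1 0 := ⟨_, rfl⟩
  obtain ⟨δ, hδ⟩ : ∃ δ, δ = A.det := ⟨_, rfl⟩
  have hb0 : b ≠ 0 := hb ▸ pl_ne (by omega) hFp hF
  have hb'0 : b' ≠ 0 := hb' ▸ pl_ne (by omega) hGp hG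
  have hδ0 : δ ≠ 0 := hδ ▸ hA
  have hdet : δ = A 0 0 * A 1 1 - A 0 1 * A 1 0 := by rw [hδ, Matrix.det_fin_two]
  -- the constant
  have hFe : ∀ (t : K) (i : Fin 2), (pc (F i)).eval t = ac F ![t, 1] i := by
    intro t i
    have h1 := he_eval (pc_natDegree (F i)) ![t, 1] (by simp)
    rw [he_pc] at h1
    simpa using h1
  have hc1 : ∀ t : K, ac G (A.mulVec ![t, 1]) = s • A.mulVec (ac F ![t, 1]) := by
    intro t
    funext l
    have h2 := congrArg (Polynomial.eval t) (hkey l)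
    rw [pl_eval] at h2
    simp only [eval_mul, eval_C, eval_add, hFe] at h2
    rw [Pi.smul_apply, mulVec_two, smul_eq_mul, ← h2]
    congr 2
    funext i
    rw [mulVec_two]
    simp
  have hc2 : ∀ v : Fin 2 → K, v 1 ≠ 0 → ac G (A.mulVec v) = s • A.mulVec (ac F v) := by
    intro v hv
    have hv' : v = v 1 • ![v 0 / v 1, 1] := by
      funext i
      fin_cases i
      · simp [mul_div_cancel₀, hv]
      · simp
    rw [hv', Matrix.mulVec_smul, ac_smul, ac_smul, hc1, Matrix.mulVec_smul, smul_comm]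
  -- the scaling factor
  obtain ⟨α, hα⟩ := IsAlgClosed.exists_pow_nat_eq (s * b * δ * (δ⁻¹) ^ d / b') (by omega : 0 < d - 1)
  have hκ : s * b * δ * (δ⁻¹) ^ d / b' ≠ 0 := by positivity
  have hα0 : α ≠ 0 := by
    rintro rfl
    rw [zero_pow (by omega)] at hα
    exact hκ hα.symm
  have hαd : α ^ d = α * (s * b * δ * (δ⁻¹) ^ d / b') := by
    rw [← hα, ← pow_succ']
    congr 1
    omega
  refine ⟨!![-(A 1 0 * α), A 0 0 * α; 0, 1], ?_, ?_, fun w hw => ⟨b'⁻¹, inv_ne_zero hb'0, ?_⟩⟩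
  · rw [Matrix.det_fin_two_of]
    simp [h10, hα0]
  · simp
  · have hU : ∀ x : Fin 2 → K, (!![-(A 1 0 * α), A 0 0 * α; 0, 1] : Matrix (Fin 2) (Fin 2) K).mulVec x =
        ![α * (A 0 0 * x 1 - A 1 0 * x 0), x 1] := by
      intro x
      funext i
      rw [mulVec_two]
      fin_cases i
      · simp
        ring
      · simp
    rw [hU, hU, ac_Pw]
    -- the point `v` with `A v = w`
    obtain ⟨v, hv⟩ : ∃ v : Fin 2 → K, A.mulVec v = w := by
      refine ⟨A⁻¹.mulVec w, ?_⟩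
      rw [Matrix.mulVec_mulVec, Matrix.mul_nonsing_inv A (isUnit_iff_ne_zero.2 hA), Matrix.one_mulVec]
    have hw0 : w 0 = A 0 0 * v 0 + A 0 1 * v 1 := by rw [← hv, mulVec_two]
    have hw1 : w 1 = A 1 0 * v 0 + A 1 1 * v 1 := by rw [← hv, mulVec_two]
    have hD : A 0 0 * w 1 - A 1 0 * w 0 = δ * v 1 := by
      rw [hw0, hw1, hdet]
      ring
    have hG1 : ac G w 1 = b' * w 1 ^ d := by rw [ac_pl hGp, hb']
    have hGD : A 0 0 * ac G w 1 - A 1 0 * ac G w 0 = s * b * δ * v 1 ^ d := by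
      by_cases hv1 : v 1 = 0
      · have hv0 : v ≠ 0 := by
          rintro rfl
          rw [Matrix.mulVec_zero] at hv
          exact hw hv.symm
        obtain ⟨c, -, h2⟩ := h v hv0
        rw [hv] at h2
        rw [h2]
        simp only [Pi.smul_apply, smul_eq_mul, mulVec_two]
        rw [ac_pl hFp, hv1, zero_pow (by omega : d ≠ 0)]
        ring
      · have h2 := hc2 v hv1
        rw [hv] at h2
        rw [h2]
        simp only [Pi.smul_apply, smul_eq_mul, mulVec_two]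
        rw [ac_pl hFp, ← hb, hdet]
        ring
    funext i
    fin_cases i
    · simp only [Fin.zero_eta, Matrix.cons_val_zero, Pi.smul_apply, smul_eq_mul]
      rw [hGD, hD, mul_pow, hαd, mul_pow, inv_pow]
      field_simp
    · show w 1 ^ d = b'⁻¹ * ac G w 1
      rw [hG1, inv_mul_cancel_left₀ hb'0]

/-- **Conjugate polynomials are conjugate by an affine map.** -/
theorem aff_of_cj [IsAlgClosed K] (hd : 2 ≤ d) {F G : Fin 2 → Fin (d + 1) → K}
    (hF : ∀ v : Fin 2 → K, ac F v = 0 → v = 0) (hG : ∀ v : Fin 2 → K, ac G v = 0 → v = 0)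
    (hFp : IsPl F) (hGp : IsPl G) (h : Pool.Agent.R559.NP.Cj F G) : Aff F G := by
  have h' := h.symm
  obtain ⟨A, hA, h1⟩ := h
  obtain ⟨A', hA', h1'⟩ := h'
  by_cases h0 : A 1 0 = 0
  · exact ⟨A, hA, h0, h1⟩
  by_cases h0' : A' 1 0 = 0
  · exact Aff.symm ⟨A', hA', h0', h1'⟩
  · exact (tot hd hG hF hGp hFp hA' h1' h0').trans (tot hd hF hG hFp hGp hA h1 h0).symm

/-- the parameters of the affine maps -/
def BA (a : Fin 3 → K) : Fin 2 × Fin 2 → K := fun q =>
  if q.1 = 0 then (if q.2 = 0 then a 0 else a 1) else (if q.2 = 0 then 0 else a 2)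

/-- **The conjugate polynomials.** -/
theorem orb_pl [IsAlgClosed K] (hd : 2 ≤ d) {F G : Fin 2 → Fin (d + 1) → K}
    (hF : ∀ v : Fin 2 → K, ac F v = 0 → v = 0) (hG : ∀ v : Fin 2 → K, ac G v = 0 → v = 0)
    (hFp : IsPl F) (hGp : IsPl G) (h : Pool.Agent.R559.NP.Cj F G) :
    ∃ a : Fin 3 → K, ∀ l : Fin 2 × Fin (d + 1), F l.1 l.2 = Orb G (BA a) l := by
  obtain ⟨A, hA, h0, h1⟩ := aff_of_cj hd hF hG hFp hGp h
  obtain ⟨τ, hτ⟩ := orb_of hF hA h1
  refine ⟨![τ * A 0 0, τ * A 0 1, τ * A 1 1], fun l => ?_⟩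
  rw [hτ]
  congr 1
  funext q
  obtain ⟨q1, q2⟩ := q
  fin_cases q1 <;> fin_cases q2 <;> simp [BA, h0]

theorem BA_mem (q : Fin 2 × Fin 2) : (fun a : Fin 3 → K => BA a q) ∈ V K (Fin 3) 1 := by
  obtain ⟨q1, q2⟩ := q
  fin_cases q1 <;> fin_cases q2
  · exact V_coord 0
  · exact V_coord 1
  · exact V_const 1 0
  · exact V_coord 2

end

end Pool.Agent.K3h53.FM
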